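import Pool.Agent.Lib.MP_72e2e6_nt.P3.B.Spec

/-!
# MP_72e2e6_nt, theorem T3p, part B: `H² = 0` (`S_Ah`)
-/

set_option autoImplicit false

namespace Pool.Agent.MP72P

section

variable {p : ℕ} [Fact p.Prime] {G O : Type} [Group G] [TopologicalSpace G] [CommRing O]
  [MulSemiringAction G O] {ω : G → ZMod p} {α : O}

private theorem Ah_charP (hO : ASMod p ω α) : CharP O p := by
  obtain ⟨q, hq⟩ := CharP.exists O
  have h1 : q ∣ p := (CharP.cast_eq_zero_iff O q p).1 hO.chp
  rcases (Nat.dvd_prime (Fact.out : p.Prime)).1 h1 with h2 | h2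
  · subst h2
    have h3 : ((1 : ℕ) : O) = 0 := (CharP.cast_eq_zero_iff O 1 1).2 (dvd_refl 1)
    rw [Nat.cast_one] at h3
    exact absurd h3 hO.one
  · subst h2
    exact hq

/-- the element of `O` given by `c`, times `α` -/
private def Ah_A (α : O) (c : ZMod p) : O := ((c.val : ℕ) : O) * α

private theorem Ah_cast (hO : ASMod p ω α) : ∃ e : ZMod p →+* O, ∀ c : ZMod p,
    e c = ((c.val : ℕ) : O) := by
  have := Ah_charP hO
  refine ⟨ZMod.castHom (dvd_refl p) O, fun c => ?_⟩
  rw [ZMod.castHom_apply, ZMod.natCast_val]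

private theorem Ah_A_add (hO : ASMod p ω α) (x y : ZMod p) :
    Ah_A α (x + y) = Ah_A α x + Ah_A α y := by
  obtain ⟨e, he⟩ := Ah_cast hO
  unfold Ah_A
  rw [← he, ← he, ← he, map_add, add_mul]

private theorem Ah_A_sub (hO : ASMod p ω α) (x y : ZMod p) :
    Ah_A α (x - y) = Ah_A α x - Ah_A α y := by
  obtain ⟨e, he⟩ := Ah_cast hO
  unfold Ah_A
  rw [← he, ← he, ← he, map_sub, sub_mul]

private theorem Ah_A_zero (hO : ASMod p ω α) : Ah_A α (0 : ZMod p) = 0 := by
  obtain ⟨e, he⟩ := Ah_cast hO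
  unfold Ah_A
  rw [← he, map_zero, zero_mul]

private theorem Ah_A_inj (hO : ASMod p ω α) {x y : ZMod p} (h : Ah_A α x = Ah_A α y) : x = y := by
  have : Nontrivial O := ⟨⟨1, 0, hO.one⟩⟩
  obtain ⟨e, he⟩ := Ah_cast hO
  unfold Ah_A at h
  rw [← he, ← he] at h
  exact e.injective (hO.uni.mul_right_cancel h)

private theorem Ah_A_smul (hO : ASMod p ω α) (x : ZMod p) (g : G) :
    g • Ah_A α x = Ah_A α (ω g * x) := by
  obtain ⟨e, he⟩ := Ah_cast hO
  have h1 : g • (((x.val : ℕ) : O)) = ((x.val : ℕ) : O) :=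
    map_natCast (MulSemiringAction.toRingHom G O g) _
  unfold Ah_A
  rw [smul_mul', h1, hO.alf g, ← he, ← he, ← he, map_mul]
  ring

/-- the additive operator -/
private def Ah_P (p : ℕ) (α x : O) : O := x ^ p - α ^ (p - 1) * x

private theorem Ah_P_add (hO : ASMod p ω α) (x y : O) :
    Ah_P p α (x + y) = Ah_P p α x + Ah_P p α y := by
  have := Ah_charP hO
  unfold Ah_P
  rw [add_pow_char]
  ring

private theorem Ah_P_sub (hO : ASMod p ω α) (x y : O) :
    Ah_P p α (x - y) = Ah_P p α x - Ah_P p α y := by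
  have := Ah_charP hO
  unfold Ah_P
  rw [sub_pow_char]
  ring

private theorem Ah_P_smul (hω : ChO p ω) (hO : ASMod p ω α) (g : G) (x : O) :
    Ah_P p α (g • x) = g • Ah_P p α x := by
  obtain ⟨e, he⟩ := Ah_cast hO
  have h1 : g • α ^ (p - 1) = α ^ (p - 1) := by
    rw [smul_pow', hO.alf g, ← he, mul_pow, ← map_pow, ZMod.pow_card_sub_one_eq_one (hω.ne g),
      map_one, one_mul]
  unfold Ah_P
  rw [smul_sub, smul_mul', smul_pow', h1]

private theorem Ah_P_A (hO : ASMod p ω α) (c : ZMod p) : Ah_P p α (Ah_A α c) = 0 := by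
  obtain ⟨e, he⟩ := Ah_cast hO
  have hp : p - 1 + 1 = p := Nat.sub_add_cancel (Fact.out : p.Prime).one_le
  have h2 : α ^ p = α ^ (p - 1) * α := by rw [← pow_succ, hp]
  unfold Ah_P Ah_A
  rw [← he, mul_pow, ← map_pow, ZMod.pow_card, h2]
  ring

omit [TopologicalSpace G] in
/-- shift of the summation -/
private theorem Ah_shift {A : Type} [AddCommMonoid A] {U : Subgroup G} [Fintype (G ⧸ U)]
    (F : G → A) (hF : ∀ g, ∀ u ∈ U, F (g * u) = F g) (γ : G) :
    ∑ q : G ⧸ U, F (γ * Quotient.out q) = ∑ q : G ⧸ U, F (Quotient.out q) := by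
  have h1 : ∀ q : G ⧸ U, F (γ * Quotient.out q) = F (Quotient.out (γ • q)) := by
    intro q
    have h2 : γ • q = ((γ * Quotient.out q : G) : G ⧸ U) := by
      conv_lhs => rw [← QuotientGroup.out_eq' q]
      rfl
    obtain ⟨u, hu⟩ := QuotientGroup.mk_out_eq_mul U (γ * Quotient.out q)
    rw [h2, hu]
    exact (hF _ _ u.2).symm
  simp only [h1]
  exact Equiv.sum_comp (MulAction.toPerm γ : Equiv.Perm (G ⧸ U)) fun q => F (Quotient.out q)

end

/-- right invariant functions are locally constant -/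
private theorem Ah_loc {G A : Type} [Group G] [TopologicalSpace G] [IsTopologicalGroup G]
    {U : Subgroup G} (hU : IsOpen (U : Set G)) (f : G → A)
    (hf : ∀ g, ∀ u ∈ U, f (g * u) = f g) : IsLocallyConstant f := by
  rw [IsLocallyConstant.iff_exists_open]
  intro g
  refine ⟨{y | g⁻¹ * y ∈ (U : Set G)}, hU.preimage (continuous_const.mul continuous_id), ?_, ?_⟩
  · show g⁻¹ * g ∈ (U : Set G)
    rw [inv_mul_cancel]
    exact U.one_mem
  · intro y hy
    have h1 := hf g (g⁻¹ * y) hy
    rwa [mul_inv_cancel_left] at h1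

theorem tAh : S_Uc → S_Ah := by
  intro hUc p _ G _ _ _ _ O _ _ ω α hω hO
  classical
  constructor
  · intro c hc hcoc
    obtain ⟨U, hUo, hUn, hcU⟩ := hUc.2 G (ZMod p) c hc
    obtain ⟨x, hxU, hx1⟩ := hO.tr U hUo hUn
    have : Finite (G ⧸ U) := Subgroup.quotient_finite_of_isOpen U hUo
    haveI : Fintype (G ⧸ U) := Fintype.ofFinite _
    rw [finsum_eq_sum_of_fintype] at hx1
    have hXinv : ∀ g, ∀ u ∈ U, (g * u) • x = g • x := by
      intro g u hu
      rw [mul_smul, hxU u hu]
    have htr : ∀ γ : G, ∑ q : G ⧸ U, (γ * Quotient.out q) • x = 1 := by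
      intro γ
      rw [Ah_shift (fun g => g • x) hXinv γ, hx1]
    have hC : ∀ g g' : G, ∀ u ∈ U, c (g * u) g' = c g g' := by
      intro g g' u hu
      have := hcU g g' u hu 1 U.one_mem
      rwa [mul_one] at this
    have hC' : ∀ g g' : G, ∀ u ∈ U, c g (g' * u) = c g g' := by
      intro g g' u hu
      have := hcU g g' 1 U.one_mem u hu
      rwa [mul_one] at this
    let a : G → O := fun γ => ∑ q : G ⧸ U, Ah_A α (c γ (Quotient.out q)) *
      (γ * Quotient.out q) • x
    have haU : ∀ g, ∀ u ∈ U, a (g * u) = a g := by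
      intro g u hu
      refine Finset.sum_congr rfl fun q _ => ?_
      rw [hC _ _ u hu]
      congr 1
      have h1 : g * u * Quotient.out q =
          g * Quotient.out q * ((Quotient.out q)⁻¹ * u * Quotient.out q) := by group
      rw [h1]
      refine hXinv _ _ ?_
      have h2 := hUn.conj_mem u hu (Quotient.out q)⁻¹
      rwa [inv_inv] at h2
    have ha2 : ∀ γ δ, a γ = ∑ q : G ⧸ U, Ah_A α (c γ (δ * Quotient.out q)) *
        (γ * (δ * Quotient.out q)) • x := by
      intro γ δ
      refine (Ah_shift (fun g => Ah_A α (c γ g) * (γ * g) • x) ?_ δ).symm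
      intro g u hu
      show Ah_A α (c γ (g * u)) * (γ * (g * u)) • x = _
      rw [hC' _ _ u hu, ← mul_assoc, hXinv _ u hu]
    have hstar : ∀ γ δ, γ • a δ - a (γ * δ) + a γ = Ah_A α (c γ δ) := by
      intro γ δ
      have e1 : γ • a δ = ∑ q : G ⧸ U, Ah_A α (ω γ * c δ (Quotient.out q)) *
          (γ * δ * Quotient.out q) • x := by
        show γ • (∑ q : G ⧸ U, Ah_A α (c δ (Quotient.out q)) * (δ * Quotient.out q) • x) = _
        rw [Finset.smul_sum]
        refine Finset.sum_congr rfl fun q _ => ?_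
        rw [smul_mul', Ah_A_smul hO, smul_smul, mul_assoc]
      have e2 : a (γ * δ) = ∑ q : G ⧸ U, Ah_A α (c (γ * δ) (Quotient.out q)) *
          (γ * δ * Quotient.out q) • x := rfl
      rw [e1, e2, ha2 γ δ, ← Finset.sum_sub_distrib, ← Finset.sum_add_distrib]
      have e3 : ∀ q : G ⧸ U, Ah_A α (ω γ * c δ (Quotient.out q)) * (γ * δ * Quotient.out q) • x -
          Ah_A α (c (γ * δ) (Quotient.out q)) * (γ * δ * Quotient.out q) • x +
          Ah_A α (c γ (δ * Quotient.out q)) * (γ * (δ * Quotient.out q)) • x =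
          Ah_A α (c γ δ) * (γ * δ * Quotient.out q) • x := by
        intro q
        have h1 := congrArg (Ah_A α) (hcoc γ δ (Quotient.out q))
        rw [Ah_A_sub hO, Ah_A_add hO, Ah_A_sub hO, Ah_A_zero hO] at h1
        rw [← mul_assoc γ δ (Quotient.out q)]
        linear_combination ((γ * δ * Quotient.out q) • x) * h1
      simp only [e3]
      rw [← Finset.mul_sum, htr, mul_one]
    let r : G → O := fun γ => Ah_P p α (a γ)
    have hrU : ∀ g, ∀ u ∈ U, r (g * u) = r g := by
      intro g u hu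
      show Ah_P p α (a (g * u)) = _
      rw [haU g u hu]
    have hr : ∀ γ δ, γ • r δ = r (γ * δ) - r γ := by
      intro γ δ
      have h1 := congrArg (Ah_P p α) (hstar γ δ)
      rw [Ah_P_add hO, Ah_P_sub hO, Ah_P_smul hω hO, Ah_P_A hO] at h1
      show γ • Ah_P p α (a δ) = Ah_P p α (a (γ * δ)) - Ah_P p α (a γ)
      linear_combination h1
    let m : O := -∑ q : G ⧸ U, r (Quotient.out q) * (Quotient.out q) • x
    have hm : ∀ γ : G, γ • m = m + r γ := by
      intro γ
      have e1 : γ • m = -∑ q : G ⧸ U, (r (γ * Quotient.out q) * (γ * Quotient.out q) • x -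
          r γ * (γ * Quotient.out q) • x) := by
        show γ • (-∑ q : G ⧸ U, r (Quotient.out q) * (Quotient.out q) • x) = _
        rw [smul_neg, Finset.smul_sum]
        refine congrArg Neg.neg (Finset.sum_congr rfl fun q _ => ?_)
        rw [smul_mul', hr, smul_smul, sub_mul]
      have e2 : ∑ q : G ⧸ U, r (γ * Quotient.out q) * (γ * Quotient.out q) • x =
          ∑ q : G ⧸ U, r (Quotient.out q) * (Quotient.out q) • x := by
        refine Ah_shift (fun g => r g * g • x) ?_ γ
        intro g u hu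
        show r (g * u) * (g * u) • x = _
        rw [hrU g u hu, hXinv g u hu]
      rw [e1, Finset.sum_sub_distrib, ← Finset.mul_sum, htr, mul_one, e2]
      show -(∑ q : G ⧸ U, r (Quotient.out q) * (Quotient.out q) • x - r γ) =
        -∑ q : G ⧸ U, r (Quotient.out q) * (Quotient.out q) • x + r γ
      ring
    obtain ⟨θ, hθ⟩ := hO.as m
    let b : G → O := fun γ => a γ - (γ • θ - θ)
    have hb01 : ∀ γ, ∃ c : ZMod p, b γ = Ah_A α c := by
      intro γ
      refine hO.dom _ ?_
      have h1 := hm γ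
      have h2 : Ah_P p α θ = m := hθ
      have h3 : Ah_P p α (b γ) = 0 := by
        show Ah_P p α (a γ - (γ • θ - θ)) = 0
        rw [Ah_P_sub hO, Ah_P_sub hO, Ah_P_smul hω hO, h2, h1]
        show r γ - (m + r γ - m) = 0
        ring
      exact h3
    obtain ⟨V, hVo, hV⟩ := hO.stab θ
    have hbloc : IsLocallyConstant b := by
      have h1 : IsLocallyConstant a := Ah_loc hUo a haU
      have h2 : IsLocallyConstant fun γ : G => γ • θ := Ah_loc hVo _ (by
        intro g u hu
        show (g * u) • θ = g • θ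
        rw [mul_smul, hV u hu])
      exact h1.sub (h2.sub (IsLocallyConstant.const θ))
    let F : O → ZMod p := fun y => if h : ∃ c : ZMod p, y = Ah_A α c then h.choose else 0
    let B : G → ZMod p := fun γ => F (b γ)
    have hB : ∀ γ, Ah_A α (B γ) = b γ := by
      intro γ
      have h1 : B γ = (hb01 γ).choose := dif_pos (hb01 γ)
      rw [h1]
      exact (hb01 γ).choose_spec.symm
    refine ⟨B, hbloc.comp F, fun γ δ => ?_⟩
    refine Ah_A_inj hO ?_
    rw [Ah_A_sub hO, Ah_A_add hO, ← Ah_A_smul hO, hB, hB, hB, ← hstar γ δ]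
    show γ • a δ - a (γ * δ) + a γ = a γ - (γ • θ - θ) + γ • (a δ - (δ • θ - θ)) -
      (a (γ * δ) - ((γ * δ) • θ - θ))
    rw [smul_sub, smul_sub, smul_smul]
    ring
  · intro H hH
    obtain ⟨U, hUo, hUn, hhU⟩ := hUc.1 G (ZMod p) H hH.loc
    obtain ⟨x, hxU, hx1⟩ := hO.tr U hUo hUn
    have : Finite (G ⧸ U) := Subgroup.quotient_finite_of_isOpen U hUo
    haveI : Fintype (G ⧸ U) := Fintype.ofFinite _
    rw [finsum_eq_sum_of_fintype] at hx1
    have hXinv : ∀ g, ∀ u ∈ U, (g * u) • x = g • x := by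
      intro g u hu
      rw [mul_smul, hxU u hu]
    have htr : ∀ γ : G, ∑ q : G ⧸ U, (γ * Quotient.out q) • x = 1 := by
      intro γ
      rw [Ah_shift (fun g => g • x) hXinv γ, hx1]
    refine ⟨-∑ q : G ⧸ U, Ah_A α (H (Quotient.out q)) * (Quotient.out q) • x, fun γ => ?_⟩
    rw [smul_neg, Finset.smul_sum]
    have e1 : ∀ q : G ⧸ U, γ • (Ah_A α (H (Quotient.out q)) * (Quotient.out q) • x) =
        Ah_A α (H (γ * Quotient.out q)) * (γ * Quotient.out q) • x -
          Ah_A α (H γ) * (γ * Quotient.out q) • x := by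
      intro q
      have h1 : H (γ * Quotient.out q) = H γ + ω γ * H (Quotient.out q) := hH.mul _ _
      rw [smul_mul', Ah_A_smul hO, smul_smul, h1, Ah_A_add hO]
      ring
    simp only [e1]
    have e2 : ∑ q : G ⧸ U, Ah_A α (H (γ * Quotient.out q)) * (γ * Quotient.out q) • x =
        ∑ q : G ⧸ U, Ah_A α (H (Quotient.out q)) * (Quotient.out q) • x := by
      refine Ah_shift (fun g => Ah_A α (H g) * g • x) ?_ γ
      intro g u hu
      show Ah_A α (H (g * u)) * (g * u) • x = _
      rw [hhU g u hu, hXinv g u hu]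
    rw [Finset.sum_sub_distrib, ← Finset.mul_sum, htr, mul_one, e2]
    show -(_ - Ah_A α (H γ)) = _ + Ah_A α (H γ)
    ring

end Pool.Agent.MP72P
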