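import Pool.Agent.Lib.MP_72e2e6_nt.P3.B.Spec

/-!
# MP_72e2e6_nt, theorem T3p, B/Has: properties of `omc` and `hP`
-/

set_option autoImplicit false

namespace Pool.Agent.MP72P

open IntermediateField Polynomial

section field

variable {p : ℕ} [Fact p.Prime] {L : Type} [Field L] [CharP L p]

private noncomputable def has_e (p : ℕ) (L : Type) [Field L] [CharP L p] : ZMod p →+* L :=
  ZMod.castHom (dvd_refl p) L

private theorem has_op (c : ZMod p) : op L c = has_e p L c := by
  unfold has_e op
  rw [ZMod.castHom_apply, ZMod.natCast_val]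

private theorem has_fix {x : L} (hx : x ^ p = x) : ∃ c : ZMod p, x = has_e p L c := by
  classical
  have hp1 : 1 < p := (Fact.out : p.Prime).one_lt
  have hP0 : (X ^ p - X : L[X]) ≠ 0 := FiniteField.X_pow_card_sub_X_ne_zero L hp1
  have hPd : (X ^ p - X : L[X]).natDegree = p := FiniteField.X_pow_card_sub_X_natDegree_eq L hp1
  have hsub : (Finset.univ.image (has_e p L)) ⊆ (X ^ p - X : L[X]).roots.toFinset := by
    intro y hy
    obtain ⟨c, -, rfl⟩ := Finset.mem_image.1 hy
    rw [Multiset.mem_toFinset, mem_roots hP0, IsRoot.def, eval_sub, eval_pow, eval_X,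
      ← map_pow, ZMod.pow_card, sub_self]
  have hcard : (X ^ p - X : L[X]).roots.toFinset.card ≤ (Finset.univ.image (has_e p L)).card := by
    rw [Finset.card_image_of_injective _ (has_e p L).injective, Finset.card_univ, ZMod.card]
    exact (Multiset.toFinset_card_le _).trans ((card_roots' _).trans hPd.le)
  have heq := Finset.eq_of_subset_of_card_le hsub hcard
  have hxr : x ∈ (X ^ p - X : L[X]).roots.toFinset := by
    rw [Multiset.mem_toFinset, mem_roots hP0, IsRoot.def, eval_sub, eval_pow, eval_X, hx, sub_self]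
  rw [← heq] at hxr
  obtain ⟨c, -, hc⟩ := Finset.mem_image.1 hxr
  exact ⟨c, hc.symm⟩

private theorem has_pp : p - 1 + 1 = p := Nat.sub_add_cancel (Fact.out : p.Prime).one_le

/-- roots of `x ^ p - α ^ (p - 1) x = 0` -/
private theorem has_ker {α h x : L} (hα : α ≠ 0) (hh : α ^ (p - 1) = h) (hx : Ph p h x = 0) :
    ∃ c : ZMod p, x = has_e p L c * α := by
  have h1 : α ^ p = h * α := by rw [← hh, ← pow_succ, has_pp]
  have h2 : (x / α) ^ p = x / α := by
    rw [div_pow, h1, div_eq_div_iff (mul_ne_zero (by rw [← hh]; exact pow_ne_zero _ hα) hα) hα]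
    unfold Ph at hx
    linear_combination α * hx
  obtain ⟨c, hc⟩ := has_fix h2
  exact ⟨c, by rw [← hc, div_mul_cancel₀ x hα]⟩

omit [CharP L p] in
private theorem has_P_sub [CharP L p] (h x y : L) : Ph p h (x - y) = Ph p h x - Ph p h y := by
  unfold Ph
  rw [sub_pow_char]
  ring

omit [CharP L p] in
private theorem has_P_add [CharP L p] (h x y : L) : Ph p h (x + y) = Ph p h x + Ph p h y := by
  unfold Ph
  rw [add_pow_char]
  ring

private theorem has_P_e {α h : L} (hh : α ^ (p - 1) = h) (c : ZMod p) :
    Ph p h (has_e p L c * α) = 0 := by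
  have h1 : α ^ p = h * α := by rw [← hh, ← pow_succ, has_pp]
  unfold Ph
  rw [mul_pow, ← map_pow, ZMod.pow_card, h1]
  ring

private theorem has_root {α h f x y : L} (hα : α ≠ 0) (hh : α ^ (p - 1) = h) (hx : Ph p h x = f)
    (hy : Ph p h y = f) : ∃ c : ZMod p, x = y + has_e p L c * α := by
  have h1 : Ph p h (x - y) = 0 := by rw [has_P_sub, hx, hy, sub_self]
  obtain ⟨c, hc⟩ := has_ker hα hh h1
  exact ⟨c, by rw [← hc]; ring⟩

private theorem has_inj {α : L} (hα : α ≠ 0) {a b : ZMod p}
    (h : has_e p L a * α = has_e p L b * α) : a = b :=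
  (has_e p L).injective (mul_right_cancel₀ hα h)

private theorem has_asr {h f : L} (H : ∃ x : L, Ph p h x = f) : Ph p h (asr p h f) = f := by
  unfold asr
  rw [dif_pos H]
  exact H.choose_spec

end field

section gal

variable {p : ℕ} [Fact p.Prime] {K L : Type} [Field K] [Field L] [Algebra K L] [CharP L p]

private theorem has_map_e (g : Gal(L/K)) (c : ZMod p) : g (has_e p L c) = has_e p L c := by
  rw [← has_op]
  unfold op
  exact map_natCast g _

private theorem has_P_map (g : Gal(L/K)) (h : K) (x : L) :
    Ph p (algebraMap K L h) (g x) = g (Ph p (algebraMap K L h) x) := by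
  unfold Ph
  rw [map_sub, map_mul, map_pow, g.commutes]

private theorem has_omc {α : L} {h : K} (hα : α ≠ 0) (hh : α ^ (p - 1) = algebraMap K L h)
    (g : Gal(L/K)) : g α = has_e p L (omc p α g) * α := by
  have h1 : Ph p (algebraMap K L h) α = 0 := by
    have h2 := has_P_e (p := p) hh 1
    rwa [map_one, one_mul] at h2
  have h3 : Ph p (algebraMap K L h) (g α) = 0 := by rw [has_P_map, h1, map_zero]
  obtain ⟨c, hc⟩ := has_ker hα hh h3
  have H : ∃ c : ZMod p, g α = op L c * α := ⟨c, by rw [has_op]; exact hc⟩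
  have h4 : omc p α g = H.choose := dif_pos H
  rw [h4, ← has_op]
  exact H.choose_spec

private theorem has_hP {α : L} {h f : K} (hα : α ≠ 0) (hh : α ^ (p - 1) = algebraMap K L h)
    (hf : ∃ x : L, Ph p (algebraMap K L h) x = algebraMap K L f) (g : Gal(L/K)) :
    g (asr p (algebraMap K L h) (algebraMap K L f)) =
      asr p (algebraMap K L h) (algebraMap K L f) + has_e p L (hP p α f g) * α := by
  have h0 := has_asr hf
  have h3 : Ph p (algebraMap K L h) (g (asr p (algebraMap K L h) (algebraMap K L f))) =
      algebraMap K L f := by rw [has_P_map, h0, g.commutes]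
  obtain ⟨c, hc⟩ := has_root hα hh h3 h0
  have H : ∃ c : ZMod p, g (asr p (α ^ (p - 1)) (algebraMap K L f)) =
      asr p (α ^ (p - 1)) (algebraMap K L f) + op L c * α := ⟨c, by
    rw [has_op, hh]; exact hc⟩
  have h4 : hP p α f g = H.choose := dif_pos H
  have h5 := H.choose_spec
  rw [← h4, hh, has_op] at h5
  exact h5

/-- the second claim -/
private theorem has_two {α : L} {h f : K} (hα : α ≠ 0) (hh : α ^ (p - 1) = algebraMap K L h)
    {x : L} (hx : Ph p (algebraMap K L h) x = algebraMap K L f) : ∃ c : ZMod p,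
      ∀ g : Gal(L/K), g x = x + has_e p L (hP p α f g + (c - omc p α g * c)) * α := by
  have hf : ∃ x : L, Ph p (algebraMap K L h) x = algebraMap K L f := ⟨x, hx⟩
  obtain ⟨c, hc⟩ := has_root hα hh hx (has_asr hf)
  refine ⟨-c, fun g => ?_⟩
  have h1 := has_hP hα hh hf g
  have h2 := has_omc hα hh g
  rw [hc, map_add, map_mul, h1, h2, has_map_e]
  simp only [map_add, map_sub, map_mul, map_neg]
  ring

end gal

/-- locally constant functions of `g x` -/
private theorem has_loc {K L A : Type} [Field K] [Field L] [Algebra K L] [IsGalois K L] (x : L)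
    (f : Gal(L/K) → A) (hf : ∀ g g' : Gal(L/K), g x = g' x → f g = f g') :
    IsLocallyConstant f := by
  rw [IsLocallyConstant.iff_exists_open]
  intro g
  refine ⟨{g' | g⁻¹ * g' ∈ MulAction.stabilizer Gal(L/K) x}, ?_, ?_, ?_⟩
  · exact (stabilizer_isOpen_of_isIntegral (K := K) x).preimage (continuous_const_mul g⁻¹)
  · show g⁻¹ * g ∈ MulAction.stabilizer Gal(L/K) x
    rw [inv_mul_cancel]
    exact one_mem _
  · intro g' hg'
    have h3 : (g⁻¹ * g') x = x := hg'
    refine hf _ _ ?_
    have h5 : g' = g * (g⁻¹ * g') := by group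
    conv_lhs => rw [h5]
    rw [AlgEquiv.mul_apply, h3]

/-- **Has.** -/
theorem tHas : S_Has := by
  intro p _ K L _ _ _ _ _ α h hα hh
  have : CharP L p := charP_of_injective_algebraMap (FaithfulSMul.algebraMap_injective K L) p
  refine ⟨⟨⟨?_, ?_, ?_, ?_⟩, ?_⟩, ?_, ?_, ?_, ?_, ?_⟩
  · refine has_loc α _ fun g g' hg => has_inj hα ?_
    rw [← has_omc hα hh, ← has_omc hα hh, hg]
  · refine has_inj hα ?_
    rw [← has_omc hα hh, map_one, one_mul]
    rfl
  · intro a b
    refine has_inj hα ?_
    rw [← has_omc hα hh, AlgEquiv.mul_apply, has_omc hα hh b, map_mul, has_map_e,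
      has_omc hα hh a, map_mul]
    ring
  · intro a h0
    have h1 := has_omc hα hh a
    rw [h0, map_zero, zero_mul] at h1
    exact hα ((map_eq_zero a).1 h1)
  · intro g
    rw [has_op]
    exact has_omc hα hh g
  · intro f x hx
    obtain ⟨c, hc⟩ := has_two hα hh hx
    exact ⟨c, fun g => by rw [has_op]; exact hc g⟩
  · intro f hf
    refine ⟨⟨?_, ?_⟩, asr p (algebraMap K L h) (algebraMap K L f), has_asr hf, fun g => ?_⟩
    · refine has_loc (asr p (algebraMap K L h) (algebraMap K L f)) _ fun g g' hg =>
        has_inj hα (add_left_cancel (a := asr p (algebraMap K L h) (algebraMap K L f)) ?_)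
      rw [← has_hP hα hh hf, ← has_hP hα hh hf, hg]
    · intro a b
      refine has_inj hα (add_left_cancel (a := asr p (algebraMap K L h) (algebraMap K L f)) ?_)
      rw [← has_hP hα hh hf, AlgEquiv.mul_apply, has_hP hα hh hf b, map_add, map_mul, has_map_e,
        has_hP hα hh hf a, has_omc hα hh a, map_add, map_mul]
      ring
    · rw [has_op]
      exact has_hP hα hh hf g
  · intro f f' hf hf'
    have h1 := has_asr hf
    have h2 := has_asr hf'
    have h3 : Ph p (algebraMap K L h) (asr p (algebraMap K L h) (algebraMap K L f) +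
        asr p (algebraMap K L h) (algebraMap K L f')) = algebraMap K L (f + f') := by
      rw [has_P_add, h1, h2, map_add]
    obtain ⟨c, hc⟩ := has_two hα hh h3
    refine ⟨-c, fun g => has_inj hα ?_⟩
    have h4 := hc g
    rw [map_add, has_hP hα hh hf g, has_hP hα hh hf' g] at h4
    simp only [map_add, map_sub, map_mul, map_neg] at h4 ⊢
    linear_combination -h4
  · intro f hf
    constructor
    · rintro ⟨c, hc⟩
      have h3 : asr p (algebraMap K L h) (algebraMap K L f) + has_e p L c * α ∈
          (⊥ : IntermediateField K L) := by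
        rw [InfiniteGalois.mem_bot_iff_fixed]
        intro g
        rw [map_add, map_mul, has_hP hα hh hf g, has_map_e, has_omc hα hh g, hc g]
        simp only [map_sub, map_mul]
        ring
      rw [IntermediateField.mem_bot] at h3
      obtain ⟨x, hx⟩ := h3
      refine ⟨x, FaithfulSMul.algebraMap_injective K L ?_⟩
      have h4 : Ph p (algebraMap K L h) (algebraMap K L x) = algebraMap K L f := by
        rw [hx, has_P_add, has_asr hf, has_P_e hh, add_zero]
      rw [← h4]
      unfold Ph
      rw [map_sub, map_pow, map_mul]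
    · rintro ⟨x, hx⟩
      have h3 : Ph p (algebraMap K L h) (algebraMap K L x) = algebraMap K L f := by
        rw [← hx]
        unfold Ph
        rw [map_sub, map_pow, map_mul]
      obtain ⟨c, hc⟩ := has_two hα hh h3
      refine ⟨-c, fun g => has_inj hα ?_⟩
      have h4 := hc g
      rw [g.commutes] at h4
      simp only [map_add, map_sub, map_mul, map_neg] at h4 ⊢
      linear_combination -h4
  · intro g
    have H : ∃ c : ZMod p, g (1 : L) = op L c * 1 := ⟨1, by
      rw [has_op, map_one, map_one, mul_one]⟩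
    have h4 : omc p (1 : L) g = H.choose := dif_pos H
    have h5 := H.choose_spec
    rw [← h4, map_one, mul_one, has_op] at h5
    refine (has_e p L).injective ?_
    rw [← h5, map_one]

end Pool.Agent.MP72P
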