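import Pool.Agent.Lib.MP_72e2e6_nt.P3.B.Spec

/-!
# MP_72e2e6_nt, theorem T3p, B/Omi: the Galois group of `Om`
-/

set_option autoImplicit false

namespace Pool.Agent.MP72P

open IntermediateField

/-- The trace of the fixed field of an open normal subgroup is the sum of the conjugates. -/
private theorem omi_trace {K L : Type} [Field K] [Field L] [Algebra K L] [IsGalois K L]
    (U : Subgroup Gal(L/K)) (hU : IsOpen (U : Set Gal(L/K))) (hn : U.Normal) :
    FiniteDimensional K (fixedField U) ∧
    ∀ x : fixedField U, ∑ᶠ q : Gal(L/K) ⧸ U, (Quotient.out q) • (x : L) =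
      algebraMap K L (Algebra.trace K (fixedField U) x) := by
  let H : ClosedSubgroup Gal(L/K) := ⟨U, U.isClosed_of_isOpen hU⟩
  have hH : (fixedField U).fixingSubgroup = U := InfiniteGalois.fixingSubgroup_fixedField H
  have hfin : FiniteDimensional K (fixedField U) := by
    refine (InfiniteGalois.isOpen_iff_finite (fixedField U)).1 ?_
    have : ((fixedField U).fixingSubgroup.carrier : Set Gal(L/K)) = (U : Set Gal(L/K)) := by
      rw [hH]
      rfl
    rw [this]
    exact hU
  have hgal : IsGalois K (fixedField U) := inferInstance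
  refine ⟨hfin, fun x => ?_⟩
  have hHn : H.Normal := hn
  let e : Gal(L/K) ⧸ H.1 ≃* Gal(fixedField H.1/K) := InfiniteGalois.normalAutEquivQuotient H
  have h1 : ∑ᶠ q : Gal(L/K) ⧸ U, (Quotient.out q) • (x : L) =
      ∑ᶠ σ : Gal(fixedField U/K), ((σ x : fixedField U) : L) := by
    refine finsum_eq_of_bijective (e : Gal(L/K) ⧸ U → Gal(fixedField U/K)) e.bijective ?_
    intro q
    have h2 : e q = AlgEquiv.restrictNormalHom (fixedField U) (Quotient.out q) := by
      conv_lhs => rw [← QuotientGroup.out_eq' q]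
      rfl
    have h3 : ((e q) x : L) = (Quotient.out q) (x : L) := by
      rw [h2]
      exact AlgEquiv.restrictNormalHom_apply (fixedField U) (Quotient.out q) x
    exact h3.symm
  rw [h1, finsum_eq_sum_of_fintype]
  have h4 := trace_eq_sum_automorphisms (K := K) (L := fixedField U) x
  have h5 : algebraMap K L (Algebra.trace K (fixedField U) x) =
      ((algebraMap K (fixedField U) (Algebra.trace K (fixedField U) x) : fixedField U) : L) := rfl
  rw [h5, h4]
  exact (map_sum (fixedField U).val _ _).symm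

section field

variable {p : ℕ} [Fact p.Prime] {L : Type} [Field L] [CharP L p]

/-- A separably closed field of characteristic `p` is closed under Artin-Schreier roots. -/
private theorem omi_as [IsSepClosed L] (m : L) : ∃ θ : L, θ ^ p - θ = m := by
  obtain ⟨x, hx⟩ := IsSepClosed.exists_root_C_mul_X_pow_add_C_mul_X_add_C (n := p) (1 : L) (-1)
    (-m) (CharP.cast_eq_zero L p) (Fact.out : p.Prime).two_le (neg_ne_zero.2 one_ne_zero)
  exact ⟨x, by linear_combination hx⟩

private noncomputable def omi_e (p : ℕ) (L : Type) [Field L] [CharP L p] : ZMod p →+* L :=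
  ZMod.castHom (dvd_refl p) L

private theorem omi_op (c : ZMod p) : ((c.val : ℕ) : L) = omi_e p L c := by
  unfold omi_e
  rw [ZMod.castHom_apply, ZMod.natCast_val]

open Polynomial in
private theorem omi_fix {x : L} (hx : x ^ p = x) : ∃ c : ZMod p, x = omi_e p L c := by
  classical
  have hp1 : 1 < p := (Fact.out : p.Prime).one_lt
  have hP0 : (X ^ p - X : L[X]) ≠ 0 := FiniteField.X_pow_card_sub_X_ne_zero L hp1
  have hPd : (X ^ p - X : L[X]).natDegree = p := FiniteField.X_pow_card_sub_X_natDegree_eq L hp1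
  have hsub : (Finset.univ.image (omi_e p L)) ⊆ (X ^ p - X : L[X]).roots.toFinset := by
    intro y hy
    obtain ⟨c, -, rfl⟩ := Finset.mem_image.1 hy
    rw [Multiset.mem_toFinset, mem_roots hP0, IsRoot.def, eval_sub, eval_pow, eval_X,
      ← map_pow, ZMod.pow_card, sub_self]
  have hcard : (X ^ p - X : L[X]).roots.toFinset.card ≤ (Finset.univ.image (omi_e p L)).card := by
    rw [Finset.card_image_of_injective _ (omi_e p L).injective, Finset.card_univ, ZMod.card]
    exact (Multiset.toFinset_card_le _).trans ((card_roots' _).trans hPd.le)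
  have heq := Finset.eq_of_subset_of_card_le hsub hcard
  have hxr : x ∈ (X ^ p - X : L[X]).roots.toFinset := by
    rw [Multiset.mem_toFinset, mem_roots hP0, IsRoot.def, eval_sub, eval_pow, eval_X, hx, sub_self]
  rw [← heq] at hxr
  obtain ⟨c, -, hc⟩ := Finset.mem_image.1 hxr
  exact ⟨c, hc.symm⟩

/-- roots of `x ^ p - α ^ (p - 1) x = 0` -/
private theorem omi_ker {α x : L} (hα : α ≠ 0) (hx : x ^ p - α ^ (p - 1) * x = 0) :
    ∃ c : ZMod p, x = ((c.val : ℕ) : L) * α := by
  have hp : p - 1 + 1 = p := Nat.sub_add_cancel (Fact.out : p.Prime).one_le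
  have h1 : α ^ p = α ^ (p - 1) * α := by rw [← pow_succ, hp]
  have h2 : (x / α) ^ p = x / α := by
    rw [div_pow, h1, div_eq_div_iff (mul_ne_zero (pow_ne_zero _ hα) hα) hα]
    linear_combination α * hx
  obtain ⟨c, hc⟩ := omi_fix h2
  exact ⟨c, by rw [omi_op, ← hc, div_mul_cancel₀ x hα]⟩

private theorem omi_inj {α : L} (hα : α ≠ 0) {a b : ZMod p}
    (h : op L a * α = op L b * α) : a = b := by
  have h1 : op L a = op L b := mul_right_cancel₀ hα h
  unfold op at h1
  rw [omi_op, omi_op] at h1
  exact (omi_e p L).injective h1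

end field

open Polynomial in
private theorem omi_int {p : ℕ} [Fact p.Prime] {A L : Type} [CommRing A] [Field L] [Algebra A L]
    (θ : L) (h : IsIntegral A (θ ^ p - θ)) : IsIntegral A θ := by
  have hA : Nontrivial A := (algebraMap A L).domain_nontrivial
  have hp1 : 1 < p := (Fact.out : p.Prime).one_lt
  have hX : (X : A[X]).degree < (p : ℕ) := by
    rw [degree_X]
    exact_mod_cast hp1
  have hm : (X ^ p - X : A[X]).Monic := monic_X_pow_sub hX
  have hd : (X ^ p - X : A[X]).natDegree = p := by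
    rw [natDegree_sub_eq_left_of_natDegree_lt, natDegree_X_pow]
    rw [natDegree_X, natDegree_X_pow]
    exact hp1
  refine IsIntegral.of_aeval_monic hm (by rw [hd]; exact (Fact.out : p.Prime).ne_zero) ?_
  rw [map_sub, map_pow, aeval_X]
  exact h

private theorem omi_tr {A K F M : Type} [CommRing A] [Field K] [Field F] [Field M] [Algebra A K]
    [Algebra A F] [Algebra A M] [Algebra K F] [Algebra K M] [IsScalarTower A K F]
    [IsScalarTower A K M] [FiniteDimensional K F] [FiniteDimensional K M] (j : F →ₐ[K] M)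
    (y : M) (hy : IsIntegral A y) (ht : Algebra.trace K M y = 1) :
    ∃ x : F, IsIntegral A x ∧ Algebra.trace K F x = 1 := by
  letI := j.toRingHom.toAlgebra
  have : IsScalarTower K F M := IsScalarTower.of_algebraMap_eq (fun c => (j.commutes c).symm)
  have : IsScalarTower A F M := by
    apply IsScalarTower.of_algebraMap_eq
    intro a
    rw [IsScalarTower.algebraMap_apply A K M, IsScalarTower.algebraMap_apply A K F]
    exact (j.commutes _).symm
  have : FiniteDimensional F M := FiniteDimensional.right K F M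
  refine ⟨Algebra.trace F M y, Algebra.isIntegral_trace hy, ?_⟩
  rw [Algebra.trace_trace, ht]

private theorem omi_comm {A K L : Type} [CommRing A] [Field K] [Field L] [Algebra A K]
    [Algebra K L] [Algebra A L] [IsScalarTower A K L] : SMulCommClass Gal(L/K) A L := by
  refine ⟨fun g a x => ?_⟩
  rw [← algebraMap_smul K a x, ← algebraMap_smul K a (g • x)]
  exact map_smul g _ x

/-- the twisted form of the existence of roots -/
private theorem omi_tw {p : ℕ} [Fact p.Prime] {A L : Type} [CommRing A] [Field L] [Algebra A L]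
    (has : ∀ m : L, IsIntegral A m → ∃ θ : L, θ ^ p - θ = m) {α : L} (hα : α ≠ 0)
    (h1 : IsIntegral A α) (h2 : IsIntegral A α⁻¹) (m : L) (hm : IsIntegral A m) :
    ∃ θ : L, IsIntegral A θ ∧ θ ^ p - α ^ (p - 1) * θ = m := by
  have hp : p - 1 + 1 = p := Nat.sub_add_cancel (Fact.out : p.Prime).one_le
  have h3 : α ^ p = α ^ (p - 1) * α := by rw [← pow_succ, hp]
  have h4 : IsIntegral A (m * α⁻¹ ^ p) := hm.mul (h2.pow p)
  obtain ⟨y, hy⟩ := has _ h4
  have hyi : IsIntegral A y := omi_int (p := p) y (by rw [hy]; exact h4)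
  refine ⟨α * y, h1.mul hyi, ?_⟩
  have h5 : α ^ p * α⁻¹ ^ p = 1 := by rw [← mul_pow, mul_inv_cancel₀ hα, one_pow]
  calc (α * y) ^ p - α ^ (p - 1) * (α * y) = α ^ p * (y ^ p - y) := by
        rw [mul_pow, h3]; ring
    _ = m * (α ^ p * α⁻¹ ^ p) := by rw [hy]; ring
    _ = m := by rw [h5, mul_one]

private theorem omi_asMod (h3 : S_Has) {p : ℕ} [Fact p.Prime] {A K L : Type} [CommRing A] [Field K]
    [Field L] [Algebra A K] [Algebra K L] [Algebra A L] [IsScalarTower A K L] [CharP K p]
    [IsGalois K L] [SMulCommClass Gal(L/K) A L]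
    (has : ∀ m : L, IsIntegral A m → ∃ θ : L, θ ^ p - θ = m)
    (htr : ∀ M : IntermediateField K L, FiniteDimensional K M →
      ∃ x : M, IsIntegral A (x : L) ∧ Algebra.trace K M x = 1)
    {α : L} {h : K} (hα : α ≠ 0) (hh : α ^ (p - 1) = algebraMap K L h) (i1 : IsIntegral A α)
    (i2 : IsIntegral A α⁻¹) :
    ASMod p (O := integralClosure A L) (omc p (K := K) α) ⟨α, i1⟩ := by
  have hch : CharP L p := charP_of_injective_algebraMap (FaithfulSMul.algebraMap_injective K L) p
  refine ⟨?_, one_ne_zero, ?_, ?_, ?_, ?_, ?_, ?_⟩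
  · refine Subtype.ext ?_
    have h1 : ((p : integralClosure A L) : L) = ((p : ℕ) : L) :=
      map_natCast (algebraMap (integralClosure A L) L) p
    rw [h1, CharP.cast_eq_zero]
    rfl
  · intro x
    exact ⟨MulAction.stabilizer Gal(L/K) (x : L),
      stabilizer_isOpen_of_isIntegral (K := K) (x : L), fun g hg => Subtype.ext hg⟩
  · intro U hU hn
    obtain ⟨hfin, htr'⟩ := omi_trace U hU hn
    obtain ⟨x, hx1, hx2⟩ := htr (fixedField U) hfin
    refine ⟨⟨(x : L), hx1⟩, ?_, ?_⟩
    · intro g hg
      exact Subtype.ext (x.2 ⟨g, hg⟩)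
    · apply Subtype.ext
      have h3 := htr' x
      rw [hx2, map_one] at h3
      refine Eq.trans ?_ h3
      have hf : Finite (Gal(L/K) ⧸ U) := Subgroup.quotient_finite_of_isOpen U hU
      have := Fintype.ofFinite (Gal(L/K) ⧸ U)
      rw [finsum_eq_sum_of_fintype, finsum_eq_sum_of_fintype]
      exact map_sum (integralClosure A L).val _ _
  · intro g
    refine Subtype.ext ?_
    have h4 := (h3 p K L α h hα hh).1.2 g
    have h5 : (((((omc p α g).val : ℕ) : integralClosure A L) * ⟨α, i1⟩ :
        integralClosure A L) : L) = op L (omc p α g) * α := by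
      have h6 : ((((omc p α g).val : ℕ) : integralClosure A L) : L) = op L (omc p α g) :=
        map_natCast (algebraMap (integralClosure A L) L) _
      rw [← h6]
      rfl
    exact h4.trans h5.symm
  · refine IsUnit.of_mul_eq_one (⟨α⁻¹, i2⟩ : integralClosure A L) (Subtype.ext ?_)
    exact mul_inv_cancel₀ hα
  · intro m
    obtain ⟨θ, hθi, hθ⟩ := omi_tw (p := p) has hα i1 i2 m m.2
    exact ⟨⟨θ, hθi⟩, Subtype.ext hθ⟩
  · intro x hx
    have h4 : (x : L) ^ p - α ^ (p - 1) * x = 0 := congrArg Subtype.val hx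
    obtain ⟨c, hc⟩ := omi_ker hα h4
    refine ⟨c, Subtype.ext ?_⟩
    rw [hc]
    have h6 : ((((c.val : ℕ) : integralClosure A L)) : L) = ((c.val : ℕ) : L) :=
      map_natCast (algebraMap (integralClosure A L) L) _
    rw [← h6]
    rfl

private theorem omi_abs (h1 : S_Ah) (h3 : S_Has) {p : ℕ} [Fact p.Prime] {A K L : Type} [CommRing A]
    [Field K] [Field L]
    [Algebra A K] [Algebra K L] [Algebra A L] [IsScalarTower A K L] [CharP K p] [IsGalois K L]
    [IsFractionRing A K] [IsIntegrallyClosed A]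
    (has : ∀ m : L, IsIntegral A m → ∃ θ : L, θ ^ p - θ = m)
    (htr : ∀ M : IntermediateField K L, FiniteDimensional K M →
      ∃ x : M, IsIntegral A (x : L) ∧ Algebra.trace K M x = 1)
    {α : L} {h : K} (hα : α ≠ 0) (hh : α ^ (p - 1) = algebraMap K L h) (i1 : IsIntegral A α)
    (i2 : IsIntegral A α⁻¹) :
    H2Z p (omc p (K := K) α) ∧ ∀ H : Gal(L/K) → ZMod p,
      Coc (fun g (x : ZMod p) => omc p α g * x) H →
      ∃ (f : A) (c : ZMod p), ∀ g, H g = hP p α (algebraMap A K f) g + (c - omc p α g * c) := by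
  have hch : CharP L p := charP_of_injective_algebraMap (FaithfulSMul.algebraMap_injective K L) p
  have hcomm : SMulCommClass Gal(L/K) A L := omi_comm
  obtain ⟨s1, s2, -, -, -, -⟩ := h3 p K L α h hα hh
  obtain ⟨hH2, hhom⟩ := h1 p Gal(L/K) (integralClosure A L) (omc p (K := K) α) ⟨α, i1⟩ s1.1
    (omi_asMod h3 has htr hα hh i1 i2)
  refine ⟨hH2, ?_⟩
  intro H hH
  obtain ⟨θ, hθ⟩ := hhom H hH
  have hθ' : ∀ g : Gal(L/K), g (θ : L) = (θ : L) + op L (H g) * α := by
    intro g
    have h4 := congrArg (fun z : integralClosure A L => (z : L)) (hθ g)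
    have h5 : ((((H g).val : ℕ) : integralClosure A L) : L) = op L (H g) :=
      map_natCast (algebraMap (integralClosure A L) L) _
    rw [← h5]
    exact h4
  have hker : ∀ c : ZMod p, (op L c * α) ^ p - algebraMap K L h * (op L c * α) = 0 := by
    intro c
    have hp : p - 1 + 1 = p := Nat.sub_add_cancel (Fact.out : p.Prime).one_le
    have h6 : α ^ p = algebraMap K L h * α := by rw [← hh, ← pow_succ, hp]
    have h7 : (op L c) ^ p = op L c := by
      unfold op
      rw [omi_op, ← map_pow, ZMod.pow_card]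
    rw [mul_pow, h6, h7]
    ring
  have hfix : ∀ g : Gal(L/K), g ((θ : L) ^ p - algebraMap K L h * θ) =
      (θ : L) ^ p - algebraMap K L h * θ := by
    intro g
    rw [map_sub, map_pow, map_mul, hθ' g, g.commutes, add_pow_char]
    linear_combination hker (H g)
  obtain ⟨f, hf⟩ := (InfiniteGalois.mem_range_algebraMap_iff_fixed (k := K)
    ((θ : L) ^ p - algebraMap K L h * θ)).2 hfix
  have hi : IsIntegral A f := by
    rw [← isIntegral_algebraMap_iff (algebraMap K L).injective, hf, ← hh]
    exact (θ.2.pow p).sub ((i1.pow (p - 1)).mul θ.2)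
  obtain ⟨a, ha⟩ := IsIntegrallyClosed.isIntegral_iff.1 hi
  obtain ⟨c, hc⟩ := s2 f θ (by unfold Ph; exact hf.symm)
  refine ⟨a, c, fun g => ?_⟩
  have h4 := hc g
  rw [hθ' g] at h4
  rw [ha]
  exact omi_inj hα (add_left_cancel h4)

/-- **Omi.** The Galois group of the maximal unramified tower. -/
theorem tOmi (h1 : S_Ah) (h2 : S_Has) (h3 : S_Twb) (h4 : S_Twt) : S_Omi := by
  intro p _ A K Ks _ _ _ _ _ _ _ _ _ _ _ _ α h hu hh αo hαo
  have hchp : CharP Ks p := charP_of_injective_algebraMap (FaithfulSMul.algebraMap_injective K Ks) p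
  have hp1 : p - 1 ≠ 0 := by have := (Fact.out : p.Prime).two_le; omega
  have hhK : α ^ (p - 1) = algebraMap K Ks (algebraMap A K h) := by
    rw [hh, IsScalarTower.algebraMap_apply A K Ks]
  have hα : α ≠ 0 := by
    rintro rfl
    rw [zero_pow hp1] at hh
    have h5 : IsUnit (algebraMap A Ks h) := hu.map _
    rw [← hh] at h5
    exact not_isUnit_zero h5
  obtain ⟨b1, b2, b3, b4, b5, b6, b7⟩ := h3 p A K Ks α (algebraMap A K h) hα hhK
  have has : ∀ m : Om p A K Ks α, IsIntegral A m → ∃ θ : Om p A K Ks α, θ ^ p - θ = m := by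
    intro m hm
    obtain ⟨θ, hθ⟩ := omi_as (p := p) (m : Ks)
    have h5 : θ ∈ Om p A K Ks α := by
      apply b6
      · rw [hθ]
        exact m.2
      · rw [hθ]
        exact hm.map ((Om p A K Ks α).val.restrictScalars A)
    exact ⟨⟨θ, h5⟩, Subtype.ext hθ⟩
  have htr : ∀ M : IntermediateField K (Om p A K Ks α), FiniteDimensional K M →
      ∃ x : M, IsIntegral A (x : Om p A K Ks α) ∧ Algebra.trace K M x = 1 := by
    intro M hM
    have hsep : Algebra.IsSeparable K M :=
      Algebra.isSeparable_tower_bot_of_isSeparable K M (Om p A K Ks α)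
    obtain ⟨β, hβ⟩ := Field.exists_primitive_element K M
    obtain ⟨T, hT, hβT⟩ := (b2 ((β : Om p A K Ks α) : Ks)).1 (β : Om p A K Ks α).2
    let φ : M →ₐ[K] Ks := (Om p A K Ks α).val.comp M.val
    have hφ : ∀ z, φ z ∈ T := by
      intro z
      have h5 : z ∈ K⟮β⟯ := by
        rw [hβ]
        exact mem_top
      have h6 : φ z ∈ K⟮β⟯.map φ := ⟨z, h5, rfl⟩
      rw [adjoin_map, Set.image_singleton] at h6
      exact (adjoin_simple_le_iff.2 hβT) h6
    let j : M →ₐ[K] T :=
      { toFun := fun z => ⟨φ z, hφ z⟩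
        map_one' := Subtype.ext (map_one φ)
        map_mul' := fun a b => Subtype.ext (map_mul φ a b)
        map_zero' := Subtype.ext (map_zero φ)
        map_add' := fun a b => Subtype.ext (map_add φ a b)
        commutes' := fun c => Subtype.ext (φ.commutes c) }
    obtain ⟨y, hy1, hy2⟩ := h4 p A K Ks α (algebraMap A K h) hα hhK T hT
    have : FiniteDimensional K T := b3 T hT
    have hy3 : IsIntegral A y := by
      rw [← isIntegral_algHom_iff (T.val.restrictScalars A) T.val.injective]
      exact hy1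
    obtain ⟨x, hx1, hx2⟩ := omi_tr j y hy3 hy2
    exact ⟨x, hx1.map (M.val.restrictScalars A), hx2⟩
  have hαo0 : αo ≠ 0 := by
    intro h0
    rw [h0] at hαo
    exact hα hαo.symm
  have hho : αo ^ (p - 1) = algebraMap K (Om p A K Ks α) (algebraMap A K h) := by
    refine Subtype.ext ?_
    have h5 : ((αo ^ (p - 1) : Om p A K Ks α) : Ks) = (αo : Ks) ^ (p - 1) := rfl
    rw [h5, hαo, hhK]
    rfl
  have hho' : αo ^ (p - 1) = algebraMap A (Om p A K Ks α) h := by
    rw [hho]
    exact (IsScalarTower.algebraMap_apply A K (Om p A K Ks α) h).symm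
  have i1 : IsIntegral A αo := by
    refine IsIntegral.of_pow (n := p - 1) (Nat.pos_of_ne_zero hp1) ?_
    rw [hho']
    exact isIntegral_algebraMap
  have i2 : IsIntegral A αo⁻¹ := by
    refine IsIntegral.of_pow (n := p - 1) (Nat.pos_of_ne_zero hp1) ?_
    rw [inv_pow, hho']
    obtain ⟨u, rfl⟩ := hu
    have h5 : (algebraMap A (Om p A K Ks α) (u : A))⁻¹ =
        algebraMap A (Om p A K Ks α) ((u⁻¹ : Aˣ) : A) := by
      refine inv_eq_of_mul_eq_one_right ?_
      rw [← map_mul, Units.mul_inv, map_one]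
    rw [h5]
    exact isIntegral_algebraMap
  obtain ⟨c1, c2⟩ := omi_abs h1 h2 has htr hαo0 hho i1 i2
  have hA : ∀ f : A, algebraMap K (Om p A K Ks α) (algebraMap A K f) =
      algebraMap A (Om p A K Ks α) f := fun f =>
    (IsScalarTower.algebraMap_apply A K (Om p A K Ks α) f).symm
  refine ⟨c1, c2, ?_, ?_⟩
  · intro f
    rw [hA]
    obtain ⟨θ, -, hθ⟩ := omi_tw (p := p) has hαo0 i1 i2 _ (isIntegral_algebraMap (x := f))
    exact ⟨θ, hθ⟩
  · intro f
    rw [hA]
    obtain ⟨θ, hθ⟩ := has _ (isIntegral_algebraMap (x := f))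
    refine ⟨θ, ?_⟩
    unfold Ph
    rw [one_mul, hθ]

end Pool.Agent.MP72P
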