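import Pool.Agent.Lib.MP_72e2e6_nt.P3.B.Spec

/-!
# MP_72e2e6_nt, theorem T3p, B/Res: restriction homomorphisms
-/

set_option autoImplicit false

namespace Pool.Agent.MP72P

open IntermediateField

private theorem res_op_inj {p : ℕ} [Fact p.Prime] {L : Type} [Field L] [CharP L p] {a b : ZMod p}
    (h : op L a = op L b) : a = b := by
  have h1 : ∀ c : ZMod p, op L c = ZMod.castHom (dvd_refl p) L c := by
    intro c
    unfold op
    rw [ZMod.castHom_apply, ZMod.natCast_val]
  rw [h1, h1] at h
  exact (ZMod.castHom (dvd_refl p) L).injective h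

private theorem res_op_map {p : ℕ} {Ω L : Type} [Field Ω] [Field L] (ι : Ω →+* L) (a : ZMod p) :
    ι (op Ω a) = op L a := by
  unfold op
  exact map_natCast ι _

/-- The restriction homomorphism exists. -/
private theorem res_exists {K Ω M L : Type} [Field K] [Field Ω] [Field M] [Field L] [Algebra K Ω]
    [Algebra K M] [Algebra K L] [Algebra M L] [IsScalarTower K M L] [IsGalois K Ω] [IsGalois M L]
    (ι : Ω →ₐ[K] L) :
    ∃ r : Gal(L/M) →* Gal(Ω/K), Continuous r ∧ ∀ g : Gal(L/M), Rst ι g (r g) := by
  let _ : Algebra Ω L := ι.toRingHom.toAlgebra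
  have htow : IsScalarTower K Ω L := IsScalarTower.of_algebraMap_eq fun x => (ι.commutes x).symm
  let r : Gal(L/M) →* Gal(Ω/K) :=
    (AlgEquiv.restrictNormalHom (F := K) (K₁ := L) Ω).comp
      (AlgEquiv.restrictScalarsHom K : (L ≃ₐ[M] L) →* (L ≃ₐ[K] L))
  have hr : ∀ g : Gal(L/M), Rst ι g (r g) := by
    intro g x
    exact (AlgEquiv.restrictNormal_commutes (AlgEquiv.restrictScalarsHom K g) Ω x).symm
  refine ⟨r, ?_, hr⟩
  refine continuous_of_continuousAt_one r ?_
  rw [ContinuousAt, map_one]
  intro U hU
  rw [krullTopology_mem_nhds_one_iff] at hU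
  obtain ⟨E, hE, hEU⟩ := hU
  have hfg : E.FG := by
    refine IntermediateField.fg_of_fg_toSubalgebra E ?_
    rw [Subalgebra.fg_iff_finiteType]
    exact inferInstanceAs (Algebra.FiniteType K E)
  obtain ⟨t, htfin, htE⟩ := IntermediateField.fg_def.mp hfg
  have hfin : Finite (ι '' t : Set L) := (htfin.image ι).to_subtype
  have hfd : FiniteDimensional M (adjoin M (ι '' t)) :=
    IntermediateField.finiteDimensional_adjoin fun x _ => Algebra.IsIntegral.isIntegral x
  have hopen := IntermediateField.fixingSubgroup_isOpen (adjoin M (ι '' t))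
  have hnhds : ((adjoin M (ι '' t)).fixingSubgroup : Set Gal(L/M)) ∈ nhds 1 :=
    hopen.mem_nhds (one_mem _)
  rw [Filter.mem_map]
  refine Filter.mem_of_superset hnhds fun g hg => hEU ?_
  have hg' := (IntermediateField.mem_fixingSubgroup_iff _ _).mp hg
  refine (IntermediateField.mem_fixingSubgroup_iff _ _).mpr fun x hx => ?_
  rw [← htE] at hx
  induction hx using IntermediateField.adjoin_induction with
  | mem x hx =>
    exact ι.injective
      ((hr g x).symm.trans (hg' _ (IntermediateField.subset_adjoin M _ ⟨x, hx, rfl⟩)))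
  | algebraMap x => exact (r g).commutes x
  | add x y _ _ hx hy => rw [map_add, hx, hy]
  | inv x _ hx => rw [map_inv₀, hx]
  | mul x y _ _ hx hy => rw [map_mul, hx, hy]

theorem tRes (hHas : S_Has) : S_Res := by
  intro p _ K Ω M L _ _ _ _ _ _ _ _ _ _ _ _ ι
  have hex := res_exists (M := M) ι
  have hdef : rsH (M := M) ι = hex.choose := dif_pos hex
  have h1 : Continuous (rsH (M := M) ι) := by
    rw [hdef]
    exact hex.choose_spec.1
  have h2 : ∀ g : Gal(L/M), Rst ι g (rsH (M := M) ι g) := by
    rw [hdef]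
    exact hex.choose_spec.2
  have hchar : CharP M p := charP_of_injective_algebraMap (algebraMap K M).injective p
  have hcharL : CharP L p := charP_of_injective_algebraMap (algebraMap K L).injective p
  refine ⟨h1, h2, ?_, ?_⟩
  · intro g σ hσ
    refine AlgEquiv.ext fun x => ι.injective ?_
    exact (hσ x).symm.trans (h2 g x)
  · intro α h hα hh
    have hα' : ι α ≠ 0 := by
      intro h0
      refine hα (ι.injective ?_)
      exact h0.trans (map_zero ι).symm
    have hh' : (ι α) ^ (p - 1) = algebraMap M L (algebraMap K M h) := by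
      rw [← map_pow, hh, ι.commutes, ← IsScalarTower.algebraMap_apply]
    obtain ⟨⟨-, k1⟩, -, k3, -, -, -⟩ := hHas p K Ω α h hα hh
    obtain ⟨⟨-, l1⟩, l2, -, -, -, -⟩ := hHas p M L (ι α) (algebraMap K M h) hα' hh'
    have hop : ∀ a : ZMod p, ι (op Ω a) = op L a := fun a => res_op_map ι.toRingHom a
    constructor
    · intro g
      have h3 := h2 g α
      rw [k1, map_mul, hop, l1] at h3
      exact (res_op_inj (mul_right_cancel₀ hα' h3)).symm
    · intro f hf
      rw [hh] at hf
      obtain ⟨-, x, hx, hx2⟩ := k3 f hf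
      have h4 : Ph p (algebraMap M L (algebraMap K M h)) (ι x) =
          algebraMap M L (algebraMap K M f) := by
        unfold Ph at hx ⊢
        rw [← IsScalarTower.algebraMap_apply, ← IsScalarTower.algebraMap_apply, ← ι.commutes h,
          ← ι.commutes f, ← hx, map_sub, map_mul, map_pow]
      obtain ⟨c, hc⟩ := l2 (algebraMap K M f) (ι x) h4
      refine ⟨c, fun g => ?_⟩
      have h5 := h2 g x
      rw [hx2, map_add, map_mul, hop, hc g] at h5
      exact (res_op_inj (mul_right_cancel₀ hα' (add_left_cancel h5))).symm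

end Pool.Agent.MP72P
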