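import Pool.Agent.Lib.MP_72e2e6_nt.P3.B.Spec

/-!
# MP_72e2e6_nt, theorem T3p, B/Sep: the absolute Galois group in characteristic `p` (helper69)
-/

set_option autoImplicit false

namespace Pool.Agent.MP72P

open IntermediateField

/-- The fixed field of an open normal subgroup is a finite Galois extension, and the trace is the
sum of the conjugates. -/
theorem Sep_trace {K L : Type} [Field K] [Field L] [Algebra K L] [IsGalois K L]
    (U : Subgroup Gal(L/K)) (hU : IsOpen (U : Set Gal(L/K))) (hn : U.Normal) :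
    FiniteDimensional K (fixedField U) ∧ IsGalois K (fixedField U) ∧
    ∀ x : fixedField U, ∑ᶠ q : Gal(L/K) ⧸ U, (Quotient.out q) • (x : L) =
      algebraMap K L (Algebra.trace K (fixedField U) x) := by
  let H : ClosedSubgroup Gal(L/K) := ⟨U, U.isClosed_of_isOpen hU⟩
  have hH : (fixedField U).fixingSubgroup = U := InfiniteGalois.fixingSubgroup_fixedField H
  have hfin : FiniteDimensional K (fixedField U) := by
    refine (InfiniteGalois.isOpen_iff_finite (fixedField U)).1 ?_
    have : ((fixedField U).fixingSubgroup.carrier : Set Gal(L/K)) = (U : Set Gal(L/K)) := by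
      rw [hH]
      rfl
    rw [this]
    exact hU
  have hgal : IsGalois K (fixedField U) := inferInstance
  refine ⟨hfin, hgal, fun x => ?_⟩
  have hHn : H.Normal := hn
  let e : Gal(L/K) ⧸ H.1 ≃* Gal(fixedField H.1/K) := InfiniteGalois.normalAutEquivQuotient H
  have h1 : ∑ᶠ q : Gal(L/K) ⧸ U, (Quotient.out q) • (x : L) =
      ∑ᶠ σ : Gal(fixedField U/K), ((σ x : fixedField U) : L) := by
    refine finsum_eq_of_bijective (e : Gal(L/K) ⧸ U → Gal(fixedField U/K)) e.bijective ?_
    intro q
    have h2 : e q = AlgEquiv.restrictNormalHom (fixedField U) (Quotient.out q) := by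
      conv_lhs => rw [← QuotientGroup.out_eq' q]
      rfl
    have h3 : ((e q) x : L) = (Quotient.out q) (x : L) := by
      rw [h2]
      exact AlgEquiv.restrictNormalHom_apply (fixedField U) (Quotient.out q) x
    exact h3.symm
  rw [h1, finsum_eq_sum_of_fintype]
  have h4 := trace_eq_sum_automorphisms (K := K) (L := fixedField U) x
  have h5 : algebraMap K L (Algebra.trace K (fixedField U) x) =
      ((algebraMap K (fixedField U) (Algebra.trace K (fixedField U) x) : fixedField U) : L) := rfl
  rw [h5, h4]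
  exact (map_sum (fixedField U).val _ _).symm

private theorem sep_cast {p : ℕ} [Fact p.Prime] {L : Type} [Field L] [CharP L p] (c : ZMod p) :
    ((c.val : ℕ) : L) = ZMod.castHom (dvd_refl p) L c := by
  rw [ZMod.natCast_val, ZMod.castHom_apply]

private theorem sep_inj {p : ℕ} [Fact p.Prime] {L : Type} [Field L] [CharP L p] {a b : ZMod p}
    (h : op L a = op L b) : a = b := by
  unfold op at h
  rw [sep_cast, sep_cast] at h
  exact (ZMod.castHom (dvd_refl p) L).injective h

private theorem sep_pow {p : ℕ} [Fact p.Prime] {L : Type} [Field L] [CharP L p] (c : ZMod p) :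
    (op L c) ^ p = op L c := by
  unfold op
  rw [sep_cast, ← map_pow, ZMod.pow_card]

/-- A separably closed field of characteristic `p` is closed under roots of `x ^ p - h x = m`. -/
private theorem sep_as {p : ℕ} [hp : Fact p.Prime] {L : Type} [Field L] [IsSepClosed L] [CharP L p]
    (h m : L) (hh : h ≠ 0) : ∃ θ : L, θ ^ p - h * θ = m := by
  obtain ⟨x, hx⟩ := IsSepClosed.exists_root_C_mul_X_pow_add_C_mul_X_add_C (n := p) (1 : L) (-h) (-m)
    (CharP.cast_eq_zero L p) hp.1.two_le (neg_ne_zero.2 hh)
  refine ⟨x, ?_⟩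
  linear_combination hx

private theorem sep_dom {p : ℕ} [hp : Fact p.Prime] {L : Type} [Field L] [CharP L p]
    (α x : L) (hα : α ≠ 0) (hx : x ^ p - α ^ (p - 1) * x = 0) :
    ∃ c : ZMod p, x = ((c.val : ℕ) : L) * α := by
  have hap : α ^ (p - 1) * α = α ^ p := pow_sub_one_mul hp.1.ne_zero α
  have h1 : (x / α) ^ p = x / α := by
    rw [div_pow, div_eq_div_iff (pow_ne_zero _ hα) hα]
    linear_combination α * hx + x * hap
  have h2 : x / α ∈ (ZMod.castHom (dvd_refl p) L).fieldRange := by
    rw [ZMod.fieldRange_castHom_eq_bot p]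
    exact (Subfield.mem_bot_iff_pow_eq_self L p).2 h1
  obtain ⟨c, hc⟩ := h2
  refine ⟨c, ?_⟩
  rw [sep_cast, hc, div_mul_cancel₀ _ hα]

private theorem sep_asMod (p : ℕ) [hp : Fact p.Prime] (k : Type) [Field k] [CharP k p]
    [CharP (SeparableClosure k) p]
    (α : SeparableClosure k) (hα : α ≠ 0)
    (half : ∀ g : Gal(SeparableClosure k/k), g α = op (SeparableClosure k) (omc p α g) * α) :
    ASMod p (G := Gal(SeparableClosure k/k)) (omc p (K := k) α) α where
  chp := CharP.cast_eq_zero _ p
  one := one_ne_zero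
  stab := by
    intro x
    exact ⟨MulAction.stabilizer Gal(SeparableClosure k/k) x,
      stabilizer_isOpen_of_isIntegral (K := k) x, fun g hg => hg⟩
  tr := by
    intro U hU hn
    obtain ⟨hfin, hgal, htr⟩ := Sep_trace U hU hn
    obtain ⟨x, hx⟩ := Algebra.trace_surjective k (fixedField U) 1
    refine ⟨x, ?_, ?_⟩
    · intro g hg
      exact x.2 ⟨g, hg⟩
    · rw [htr x, hx, map_one]
  alf := fun g => half g
  uni := isUnit_iff_ne_zero.2 hα
  as := fun m => sep_as _ m (pow_ne_zero _ hα)
  dom := fun x hx => sep_dom α x hα hx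

/-- **Sep.** The absolute Galois group of a field of characteristic `p`. -/
theorem tSep (h1 : S_Ah) (h2 : S_Has) : S_Sep := by
  intro p hp k _ _ α h hα hh
  have hchar : CharP (SeparableClosure k) p :=
    charP_of_injective_algebraMap (algebraMap k (SeparableClosure k)).injective p
  obtain ⟨⟨hω, half⟩, hroot, -⟩ := h2 p k (SeparableClosure k) α h hα hh
  obtain ⟨hH2, hhom⟩ := h1 p Gal(SeparableClosure k/k) (SeparableClosure k)
    (omc p (K := k) α) α hω (sep_asMod p k α hα half)
  refine ⟨hH2, fun f => sep_as _ f (pow_ne_zero _ hα), ?_⟩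
  intro H hH
  obtain ⟨θ, hθ⟩ := hhom H hH
  have hθ' : ∀ g : Gal(SeparableClosure k/k),
      g θ = θ + op (SeparableClosure k) (H g) * α := hθ
  have hap : α ^ (p - 1) * α = α ^ p := pow_sub_one_mul hp.1.ne_zero α
  have hfix : ∀ g : Gal(SeparableClosure k/k),
      g (Ph p (algebraMap k (SeparableClosure k) h) θ) =
        Ph p (algebraMap k (SeparableClosure k) h) θ := by
    intro g
    unfold Ph
    rw [map_sub, map_mul, map_pow, hθ' g, AlgEquiv.commutes, add_pow_char, mul_pow, sep_pow, ← hh]
    linear_combination (-(op (SeparableClosure k) (H g))) * hap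
  obtain ⟨f, hf⟩ := (InfiniteGalois.mem_range_algebraMap_iff_fixed (k := k)
    (Ph p (algebraMap k (SeparableClosure k) h) θ)).2 hfix
  obtain ⟨c, hc⟩ := hroot f θ hf.symm
  refine ⟨f, c, fun g => ?_⟩
  have h4 := hc g
  rw [hθ' g] at h4
  exact sep_inj (mul_right_cancel₀ hα (add_left_cancel h4))

end Pool.Agent.MP72P
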