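import Pool.Agent.Lib.MP_72e2e6_nt.P3.B.Spec

/-!
# MP_72e2e6_nt, theorem T3p, B/Twt: integral elements of trace one in towers
-/

set_option autoImplicit false

namespace Pool.Agent.MP72P

open IntermediateField Polynomial

section as

variable {p : ℕ} [Fact p.Prime]

private noncomputable def twt_e (p : ℕ) (L : Type) [Field L] [CharP L p] : ZMod p →+* L :=
  ZMod.castHom (dvd_refl p) L

private theorem twt_e_val {L : Type} [Field L] [CharP L p] (c : ZMod p) :
    ((c.val : ℕ) : L) = twt_e p L c := by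
  unfold twt_e
  rw [ZMod.castHom_apply, ZMod.natCast_val]

private theorem twt_fix {L : Type} [Field L] [CharP L p] {x : L} (hx : x ^ p = x) :
    ∃ c : ZMod p, x = twt_e p L c := by
  classical
  have hp1 : 1 < p := (Fact.out : p.Prime).one_lt
  have hP0 : (X ^ p - X : L[X]) ≠ 0 := FiniteField.X_pow_card_sub_X_ne_zero L hp1
  have hPd : (X ^ p - X : L[X]).natDegree = p := FiniteField.X_pow_card_sub_X_natDegree_eq L hp1
  have hsub : (Finset.univ.image (twt_e p L)) ⊆ (X ^ p - X : L[X]).roots.toFinset := by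
    intro y hy
    obtain ⟨c, -, rfl⟩ := Finset.mem_image.1 hy
    rw [Multiset.mem_toFinset, mem_roots hP0, IsRoot.def, eval_sub, eval_pow, eval_X,
      ← map_pow, ZMod.pow_card, sub_self]
  have hcard : (X ^ p - X : L[X]).roots.toFinset.card ≤ (Finset.univ.image (twt_e p L)).card := by
    rw [Finset.card_image_of_injective _ (twt_e p L).injective, Finset.card_univ, ZMod.card]
    exact (Multiset.toFinset_card_le _).trans ((card_roots' _).trans hPd.le)
  have heq := Finset.eq_of_subset_of_card_le hsub hcard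
  have hxr : x ∈ (X ^ p - X : L[X]).roots.toFinset := by
    rw [Multiset.mem_toFinset, mem_roots hP0, IsRoot.def, eval_sub, eval_pow, eval_X, hx, sub_self]
  rw [← heq] at hxr
  obtain ⟨c, -, hc⟩ := Finset.mem_image.1 hxr
  exact ⟨c, hc.symm⟩

private theorem twt_Q {F : Type} [CommRing F] [Nontrivial F] (m : F) :
    (X ^ p - (X + C m) : F[X]).natDegree = p ∧ (X ^ p - (X + C m) : F[X]).Monic := by
  have hp1 : 1 < p := (Fact.out : p.Prime).one_lt
  have h1 : (X + C m : F[X]).natDegree = 1 := natDegree_X_add_C m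
  have h2 : (X + C m : F[X]).degree < (p : ℕ) := by
    refine degree_le_natDegree.trans_lt ?_
    rw [h1]
    exact_mod_cast hp1
  refine ⟨?_, monic_X_pow_sub h2⟩
  rw [natDegree_sub_eq_left_of_natDegree_lt, natDegree_X_pow]
  rw [h1, natDegree_X_pow]
  exact hp1

private theorem twt_splits {L : Type} [Field L] [CharP L p] (θ : L) :
    Splits (X ^ p - (X + C (θ ^ p - θ)) : L[X]) := by
  classical
  obtain ⟨hd, hm⟩ := twt_Q (p := p) (θ ^ p - θ)
  rw [splits_iff_card_roots]
  refine le_antisymm (card_roots' _) ?_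
  have hinj : Function.Injective fun c : ZMod p => θ + twt_e p L c := fun c c' h =>
    (twt_e p L).injective (add_left_cancel h)
  have h1 : (Finset.univ.image fun c : ZMod p => θ + twt_e p L c).card = p := by
    rw [Finset.card_image_of_injective _ hinj, Finset.card_univ, ZMod.card]
  have h2 : (Finset.univ.image fun c : ZMod p => θ + twt_e p L c) ⊆
      (X ^ p - (X + C (θ ^ p - θ)) : L[X]).roots.toFinset := by
    intro y hy
    obtain ⟨c, -, rfl⟩ := Finset.mem_image.1 hy
    rw [Multiset.mem_toFinset, mem_roots hm.ne_zero, IsRoot.def, eval_sub, eval_pow, eval_add,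
      eval_X, eval_C, add_pow_char, ← map_pow, ZMod.pow_card]
    ring
  rw [hd]
  calc p = _ := h1.symm
    _ ≤ _ := Finset.card_le_card h2
    _ ≤ _ := Multiset.toFinset_card_le _

variable {F L : Type} [Field F] [Field L] [Algebra F L] [CharP F p] [CharP L p]

private theorem twt_sum (θ : L) (R : Multiset L) (h : ∀ y ∈ R, ∃ z : F, algebraMap F L z = y - θ) :
    ∃ z : F, algebraMap F L z = R.sum - (R.card : L) * θ := by
  induction R using Multiset.induction_on with
  | empty => exact ⟨0, by simp⟩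
  | cons a R ih =>
    obtain ⟨z, hz⟩ := ih fun y hy => h y (Multiset.mem_cons_of_mem hy)
    obtain ⟨w, hw⟩ := h a (Multiset.mem_cons_self a R)
    refine ⟨w + z, ?_⟩
    rw [map_add, hz, hw, Multiset.sum_cons, Multiset.card_cons]
    push_cast
    ring

/-- the degree -/
private theorem twt_deg (θ : L) (m : F) (hθ : θ ^ p - θ = algebraMap F L m)
    (hn : θ ∉ Set.range (algebraMap F L)) :
    IsIntegral F θ ∧ (minpoly F θ).natDegree = p := by
  obtain ⟨hd, hm⟩ := twt_Q (p := p) m
  have hroot : aeval θ (X ^ p - (X + C m) : F[X]) = 0 := by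
    rw [map_sub, map_add, map_pow, aeval_X, aeval_C, ← hθ]
    ring
  have hint : IsIntegral F θ := ⟨_, hm, hroot⟩
  refine ⟨hint, ?_⟩
  have hdvd := minpoly.dvd F θ hroot
  have hle : (minpoly F θ).natDegree ≤ p := by
    rw [← hd]
    exact natDegree_le_of_dvd hdvd hm.ne_zero
  by_contra hne
  have hlt : (minpoly F θ).natDegree < p := lt_of_le_of_ne hle hne
  have hpos : 0 < (minpoly F θ).natDegree := minpoly.natDegree_pos hint
  have hmap : (X ^ p - (X + C m) : F[X]).map (algebraMap F L) =
      X ^ p - (X + C (θ ^ p - θ)) := by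
    rw [Polynomial.map_sub, Polynomial.map_add, Polynomial.map_pow, map_X, map_C, hθ]
  have hdvd' : (minpoly F θ).map (algebraMap F L) ∣ X ^ p - (X + C (θ ^ p - θ)) := by
    rw [← hmap]
    exact Polynomial.map_dvd _ hdvd
  have hQ0 : (X ^ p - (X + C (θ ^ p - θ)) : L[X]) ≠ 0 := (twt_Q (p := p) (θ ^ p - θ)).2.ne_zero
  have hs : Splits ((minpoly F θ).map (algebraMap F L)) := (twt_splits θ).of_dvd hQ0 hdvd'
  have hmon : ((minpoly F θ).map (algebraMap F L)).Monic := (minpoly.monic hint).map _
  have hnc := hs.nextCoeff_eq_neg_sum_roots_of_monic hmon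
  have hcard : ((minpoly F θ).map (algebraMap F L)).roots.card = (minpoly F θ).natDegree := by
    rw [splits_iff_card_roots.1 hs, natDegree_map]
  obtain ⟨z, hz⟩ := twt_sum (F := F) θ ((minpoly F θ).map (algebraMap F L)).roots (by
    intro y hy
    have h1 : IsRoot ((minpoly F θ).map (algebraMap F L)) y := isRoot_of_mem_roots hy
    have h2 : IsRoot (X ^ p - (X + C (θ ^ p - θ)) : L[X]) y := h1.dvd hdvd'
    rw [IsRoot.def, eval_sub, eval_pow, eval_add, eval_X, eval_C] at h2
    have h3 : (y - θ) ^ p = y - θ := by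
      rw [sub_pow_char]
      linear_combination h2
    obtain ⟨c, hc⟩ := twt_fix h3
    refine ⟨twt_e p F c, ?_⟩
    rw [hc, ← twt_e_val, ← twt_e_val, map_natCast])
  rw [nextCoeff_map_eq] at hnc
  rw [hcard] at hz
  have hd0 : ((minpoly F θ).natDegree : F) ≠ 0 := by
    intro h0
    have h1 := (CharP.cast_eq_zero_iff F p _).1 h0
    exact absurd (Nat.le_of_dvd hpos h1) (by omega)
  refine hn ⟨((minpoly F θ).natDegree : F)⁻¹ * (-(minpoly F θ).nextCoeff - z), ?_⟩
  have h5 : algebraMap F L ((minpoly F θ).natDegree : F) ≠ 0 := by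
    rw [Ne, map_eq_zero]
    exact hd0
  rw [map_mul, map_inv₀, map_sub, map_neg, hnc, hz, neg_neg]
  rw [inv_mul_eq_iff_eq_mul₀ h5, map_natCast]
  ring

omit [Fact p.Prime] [CharP F p] [CharP L p] in
/-- the trace of the highest power of the generator -/
private theorem twt_tr {S : Type} [CommRing S] [Algebra F S] (pb : PowerBasis F S)
    [CharP F pb.dim] (h1 : 1 < pb.dim) (m : F)
    (hm : pb.gen ^ pb.dim = pb.gen + algebraMap F S m) :
    Algebra.trace F S (pb.gen ^ (pb.dim - 1)) = -1 := by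
  classical
  obtain ⟨i0, hi0⟩ : ∃ i0 : Fin pb.dim, i0.val = 0 := ⟨⟨0, by omega⟩, rfl⟩
  have key : ∀ i : Fin pb.dim, Algebra.leftMulMatrix pb.basis (pb.gen ^ (pb.dim - 1)) i i =
      1 - (if i = i0 then 1 else 0) := by
    intro i
    rw [Algebra.leftMulMatrix_eq_repr_mul, pb.basis_eq_pow]
    by_cases hi : i = i0
    · rw [if_pos hi, sub_self, hi, hi0, pow_zero, mul_one]
      have h2 : pb.gen ^ (pb.dim - 1) = pb.basis ⟨pb.dim - 1, by omega⟩ := by
        rw [pb.basis_eq_pow]
      rw [h2, Module.Basis.repr_self, Finsupp.single_apply, if_neg]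
      intro h3
      have h4 := congrArg Fin.val h3
      rw [hi0] at h4
      simp only at h4
      omega
    · rw [if_neg hi, sub_zero]
      obtain ⟨j, hj⟩ : ∃ j, i.val = j + 1 := by
        refine ⟨i.val - 1, ?_⟩
        have : i.val ≠ 0 := fun h => hi (Fin.ext (h.trans hi0.symm))
        omega
      have hjlt : j < pb.dim := by have := i.2; omega
      have h2 : pb.gen ^ (pb.dim - 1) * pb.gen ^ (i : ℕ) =
          pb.basis i + m • pb.basis ⟨j, hjlt⟩ := by
        rw [pb.basis_eq_pow, pb.basis_eq_pow, ← pow_add, hj]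
        have h3 : pb.dim - 1 + (j + 1) = pb.dim + j := by omega
        rw [h3, pow_add, hm, Algebra.smul_def]
        show (pb.gen + algebraMap F S m) * pb.gen ^ j = pb.gen ^ (j + 1) + algebraMap F S m * pb.gen ^ j
        ring
      rw [h2, map_add, map_smul, Module.Basis.repr_self, Module.Basis.repr_self, Finsupp.add_apply,
        Finsupp.smul_apply, Finsupp.single_eq_same, Finsupp.single_apply, if_neg, smul_zero,
        add_zero]
      intro h4
      have h5 := congrArg Fin.val h4
      rw [hj] at h5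
      simp only at h5
      omega
  rw [Algebra.trace_eq_matrix_trace pb.basis, Matrix.trace]
  simp only [Matrix.diag_apply, key]
  rw [Finset.sum_sub_distrib, Finset.sum_ite_eq' Finset.univ i0, if_pos (Finset.mem_univ _),
    Finset.sum_const, Finset.card_univ, Fintype.card_fin, nsmul_eq_mul, mul_one,
    CharP.cast_eq_zero, zero_sub]

/-- The trace of a root of `X ^ p - X - m` which is not in the base field. -/
private theorem twt_trace (θ : L) (m : F) (hθ : θ ^ p - θ = algebraMap F L m)
    (hn : θ ∉ Set.range (algebraMap F L)) :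
    IsIntegral F θ ∧ Algebra.trace F F⟮θ⟯ (AdjoinSimple.gen F θ ^ (p - 1)) = -1 := by
  obtain ⟨hint, hdeg⟩ := twt_deg θ m hθ hn
  refine ⟨hint, ?_⟩
  obtain ⟨pb, hpb⟩ : ∃ pb : PowerBasis F F⟮θ⟯, pb = IntermediateField.adjoin.powerBasis hint :=
    ⟨_, rfl⟩
  have hg : pb.gen = AdjoinSimple.gen F θ := by rw [hpb]; rfl
  have hdim : pb.dim = p := by
    rw [hpb, IntermediateField.adjoin.powerBasis_dim, hdeg]
  have hch : CharP F pb.dim := by rw [hdim]; infer_instance
  have h1 := twt_tr pb (by rw [hdim]; exact (Fact.out : p.Prime).one_lt) m (by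
    rw [hdim, hg]
    refine Subtype.ext ?_
    show θ ^ p = θ + algebraMap F L m
    rw [← hθ]
    ring)
  rw [hdim, hg] at h1
  exact h1

end as

/-- The step of the induction. -/
private theorem twt_step {p : ℕ} [Fact p.Prime] {A K Ks : Type} [CommRing A] [Field K]
    [Algebra A K] [Field Ks] [CharP K p]
    [Algebra K Ks] [Algebra A Ks] [IsScalarTower A K Ks]
    (M : IntermediateField K Ks) (θ : Ks) [FiniteDimensional K M]
    (hint : IsIntegral A (θ ^ p - θ)) (hmem : θ ^ p - θ ∈ M) (hn : θ ∉ M)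
    (x : M) (hx : IsIntegral A (x : Ks)) (htr : Algebra.trace K M x = 1) :
    ∃ y : (M ⊔ K⟮θ⟯ : IntermediateField K Ks), IsIntegral A (y : Ks) ∧
      Algebra.trace K (M ⊔ K⟮θ⟯ : IntermediateField K Ks) y = 1 := by
  have hcM : CharP M p := charP_of_injective_algebraMap (FaithfulSMul.algebraMap_injective K M) p
  have hcL : CharP Ks p := charP_of_injective_algebraMap (FaithfulSMul.algebraMap_injective K Ks) p
  obtain ⟨hθ, htθ⟩ := twt_trace (p := p) (F := M) (L := Ks) θ ⟨θ ^ p - θ, hmem⟩ rfl (by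
    rintro ⟨y, hy⟩
    exact hn (hy ▸ y.2))
  have hA : Nontrivial A := (algebraMap A Ks).domain_nontrivial
  have hθA : IsIntegral A θ := by
    obtain ⟨hd, hm⟩ := twt_Q (p := p) (0 : A)
    refine IsIntegral.of_aeval_monic hm (by rw [hd]; exact (Fact.out : p.Prime).ne_zero) ?_
    rw [map_sub, map_add, map_pow, aeval_X, aeval_C, map_zero, add_zero]
    exact hint
  have hE : restrictScalars K (IntermediateField.adjoin M {θ}) = M ⊔ K⟮θ⟯ :=
    IntermediateField.restrictScalars_adjoin_eq_sup K M ({θ} : Set Ks)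
  have hfin : FiniteDimensional M M⟮θ⟯ := IntermediateField.adjoin.finiteDimensional hθ
  let y : M⟮θ⟯ := (-x) • AdjoinSimple.gen M θ ^ (p - 1)
  have hy : Algebra.trace K M⟮θ⟯ y = 1 := by
    have hfree : Module.Free M M⟮θ⟯ := Module.Free.of_divisionRing M M⟮θ⟯
    have hfree' : Module.Free K M := Module.Free.of_divisionRing K M
    rw [← Algebra.trace_trace (S := M)]
    show Algebra.trace K M (Algebra.trace M M⟮θ⟯ ((-x) • AdjoinSimple.gen M θ ^ (p - 1))) = 1
    rw [map_smul, htθ, smul_eq_mul, mul_neg, mul_one, neg_neg, htr]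
  rw [← hE]
  let e : M⟮θ⟯ ≃ₐ[K] (restrictScalars K (IntermediateField.adjoin M {θ})) :=
    { toFun := fun z => ⟨z.1, z.2⟩
      invFun := fun z => ⟨z.1, z.2⟩
      left_inv := fun _ => rfl
      right_inv := fun _ => rfl
      map_mul' := fun _ _ => rfl
      map_add' := fun _ _ => rfl
      commutes' := fun _ => rfl }
  refine ⟨e y, ?_, ?_⟩
  · show IsIntegral A (((-x : M) : Ks) * θ ^ (p - 1))
    have h1 : ((-x : M) : Ks) = -(x : Ks) := rfl
    rw [h1]
    exact hx.neg.mul (hθA.pow _)
  · rw [Algebra.trace_eq_of_algEquiv e y]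
    exact hy

/-- The bottom of the tower. -/
private theorem twt_bot {p : ℕ} [Fact p.Prime] {A K Ks : Type} [CommRing A] [Field K]
    [Field Ks] [CharP K p] [Algebra K Ks] [Algebra A Ks] (α : Ks) (h : K)
    (hh : α ^ (p - 1) = algebraMap K Ks h) :
    ∃ y : K⟮α⟯, IsIntegral A (y : Ks) ∧ Algebra.trace K K⟮α⟯ y = 1 := by
  have hp1 : 1 < p := (Fact.out : p.Prime).one_lt
  have hm : (X ^ (p - 1) - C h : K[X]).Monic := monic_X_pow_sub_C h (by omega)
  have hroot : aeval α (X ^ (p - 1) - C h : K[X]) = 0 := by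
    rw [map_sub, map_pow, aeval_X, aeval_C, hh, sub_self]
  have hint : IsIntegral K α := ⟨_, hm, hroot⟩
  have hle : (minpoly K α).natDegree ≤ p - 1 := by
    have h1 := natDegree_le_of_dvd (minpoly.dvd K α hroot) hm.ne_zero
    rwa [natDegree_X_pow_sub_C] at h1
  have hpos : 0 < (minpoly K α).natDegree := minpoly.natDegree_pos hint
  have hfr : Module.finrank K K⟮α⟯ = (minpoly K α).natDegree :=
    IntermediateField.adjoin.finrank hint
  have hd0 : ((minpoly K α).natDegree : ZMod p) ≠ 0 := by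
    intro h0
    have h1 := (ZMod.natCast_eq_zero_iff _ _).1 h0
    exact absurd (Nat.le_of_dvd hpos h1) (by omega)
  refine ⟨((((((minpoly K α).natDegree : ZMod p))⁻¹).val : ℕ) : K⟮α⟯), ?_, ?_⟩
  · show IsIntegral A ((((((((minpoly K α).natDegree : ZMod p))⁻¹).val : ℕ) : K⟮α⟯)) : Ks)
    have h1 : ((((((((minpoly K α).natDegree : ZMod p))⁻¹).val : ℕ) : K⟮α⟯)) : Ks) =
        ((((((minpoly K α).natDegree : ZMod p))⁻¹).val : ℕ) : Ks) :=
      map_natCast (algebraMap K⟮α⟯ Ks) _
    rw [h1]
    exact isIntegral_natCast _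
  · have h1 : ((((((minpoly K α).natDegree : ZMod p))⁻¹).val : ℕ) : K⟮α⟯) =
        algebraMap K K⟮α⟯ (((((((minpoly K α).natDegree : ZMod p))⁻¹).val : ℕ) : K)) :=
      (map_natCast (algebraMap K K⟮α⟯) _).symm
    rw [h1, Algebra.trace_algebraMap, hfr, nsmul_eq_mul, twt_e_val (p := p)]
    have h2 : ((minpoly K α).natDegree : K) = twt_e p K ((minpoly K α).natDegree : ZMod p) :=
      (map_natCast (twt_e p K) _).symm
    rw [h2, ← map_mul, mul_inv_cancel₀ hd0, map_one]

/-- **Twt.** Integral elements of trace one in towers. -/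
theorem tTwt (hT : S_Twb) : S_Twt := by
  intro p _ A K Ks _ _ _ _ _ _ _ _ _ _ α h hα hh M hM
  have hfin := (hT p A K Ks α h hα hh).2.2.1
  induction hM with
  | bot => exact twt_bot α h hh
  | step M θ hM hint hmem ih =>
    by_cases hn : θ ∈ M
    · have hE : M ⊔ K⟮θ⟯ = M := sup_eq_left.2 (adjoin_simple_le_iff.2 hn)
      rw [hE]
      exact ih
    · obtain ⟨x, hx, htr⟩ := ih
      have := hfin M hM
      exact twt_step M θ hint hmem hn x hx htr

end Pool.Agent.MP72P
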