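import Pool.Agent.Lib.MP_72e2e6_nt.P3.B.Spec

/-!
# MP_72e2e6_nt, theorem T3p, part B, Uc: locally constant functions on compact groups
-/

namespace Pool.Agent.MP72P

/-- a tube lemma -/
private theorem tube {G : Type} [Group G] [TopologicalSpace G] [IsTopologicalGroup G]
    [CompactSpace G] {W : Set (G × G)} (hW : IsOpen W) (h1 : ∀ g, (g, (1 : G)) ∈ W) :
    ∃ V : Set G, IsOpen V ∧ (1 : G) ∈ V ∧ ∀ g, ∀ v ∈ V, (g, v) ∈ W := by
  obtain ⟨u, v, _, hv, hu1, hv1, huv⟩ := generalized_tube_lemma (isCompact_univ (X := G))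
    (isCompact_singleton (x := (1 : G))) hW (by
      rintro ⟨g, x⟩ ⟨_, hx⟩
      have hx' : x = 1 := hx
      subst hx'
      exact h1 g)
  exact ⟨v, hv, hv1 rfl, fun g x hx => huv ⟨hu1 (Set.mem_univ g), hx⟩⟩

/-- the stabilizer of a function -/
private def stb {G A : Type} [Group G] (f : G → A) : Subgroup G where
  carrier := {u | ∀ g, f (g * u) = f g}
  one_mem' := fun g => by rw [mul_one]
  mul_mem' := by
    intro u v hu hv g
    rw [← mul_assoc, hv, hu]
  inv_mem' := by
    intro u hu g
    have := hu (g * u⁻¹)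
    rw [inv_mul_cancel_right] at this
    exact this.symm

private theorem one_var (G : Type) [Group G] [TopologicalSpace G] [IsTopologicalGroup G]
    [CompactSpace G] (A : Type) (f : G → A) (hf : IsLocallyConstant f) :
    ∃ U : Subgroup G, IsOpen (U : Set G) ∧ U.Normal ∧ ∀ g, ∀ u ∈ U, f (g * u) = f g := by
  have hH : IsOpen (stb f : Set G) := by
    have hW : IsOpen {p : G × G | f (p.1 * p.2) = f p.1} := by
      have h1 : IsLocallyConstant fun p : G × G => f (p.1 * p.2) :=
        hf.comp_continuous continuous_mul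
      have h2 : IsLocallyConstant fun p : G × G => f p.1 := hf.comp_continuous continuous_fst
      have h3 : IsLocallyConstant fun p : G × G => (f (p.1 * p.2), f p.1) := h1.prodMk h2
      exact h3 {x | x.1 = x.2}
    obtain ⟨V, hV, h1V, hVW⟩ := tube hW fun g => by
      show f (g * 1) = f g
      rw [mul_one]
    exact Subgroup.isOpen_of_mem_nhds _ (Filter.mem_of_superset (hV.mem_nhds h1V)
      fun v hv g => hVW g v hv)
  refine ⟨(stb f).normalCore, ?_, inferInstance, fun g u hu =>
    Subgroup.normalCore_le _ hu g⟩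
  have hW : IsOpen {p : G × G | p.1 * p.2 * p.1⁻¹ ∈ stb f} :=
    hH.preimage (by fun_prop)
  obtain ⟨V, hV, h1V, hVW⟩ := tube hW fun g => by
    show g * 1 * g⁻¹ ∈ stb f
    rw [mul_one, mul_inv_cancel]
    exact one_mem _
  exact Subgroup.isOpen_of_mem_nhds _ (Filter.mem_of_superset (hV.mem_nhds h1V)
    fun v hv g => hVW g v hv)

theorem tUc : S_Uc := by
  refine ⟨one_var, ?_⟩
  intro G _ _ _ _ A c hc
  obtain ⟨N, hN, hNn, hNf⟩ := one_var (G × G) A (fun p => c p.1 p.2) hc
  refine ⟨N.comap (MonoidHom.inl G G) ⊓ N.comap (MonoidHom.inr G G), ?_, ?_, ?_⟩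
  · have h1 : IsOpen ((N.comap (MonoidHom.inl G G) : Subgroup G) : Set G) :=
      hN.preimage (continuous_id.prodMk continuous_const)
    have h2 : IsOpen ((N.comap (MonoidHom.inr G G) : Subgroup G) : Set G) :=
      hN.preimage (continuous_const.prodMk continuous_id)
    exact h1.inter h2
  · infer_instance
  · intro g h u hu v hv
    have h1 : ((u, 1) : G × G) ∈ N := hu.1
    have h2 : ((1, v) : G × G) ∈ N := hv.2
    have h3 := hNf (g, h) _ (mul_mem h1 h2)
    simpa using h3

end Pool.Agent.MP72P
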