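import Pool.Agent.Lib.MP_72e2e6_nt.P3.Defs
import Pool.Agent.Lib.MP_72e2e6_nt.P3.A.Defs

/-!
# MP_72e2e6_nt, theorem T3p, part B: Artin-Schreier towers and `H² = 0`

The proofs are complete in the docstrings; every module is independent (used statements are
hypotheses): file `P3/B/<Name>.lean` (import this file only) with `theorem t<Name> : S_<Name>` or
`theorem t<Name> (h1 : S_X) (h2 : S_Y) .. : S_<Name>` (in the order of the docstring), namespace
`Pool.Agent.MP72P`, other declarations `private`. The corresponding modules for `p = 2`, `α = 1` are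
`W2/B/<Name>.lean`: look at them. All types are in `Type`. `h = α ^ (p - 1)`, `P_h(x) = x ^ p - h x` is
additive in characteristic `p`. In a field of characteristic `p` the elements `op L c`, `c ∈ ZMod p`, are
the roots of `x ^ p = x`.
-/

namespace Pool.Agent.MP72P

open IntermediateField

/-- A ring `O` of characteristic `p` with a continuous action of `G`, with elements of trace one, a
unit `α` on which `G` acts by `ω`, and closed under roots of `x ^ p - α ^ (p - 1) x = m`. -/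
structure ASMod (p : ℕ) {G O : Type*} [Group G] [TopologicalSpace G] [CommRing O]
    [MulSemiringAction G O] (ω : G → ZMod p) (α : O) : Prop where
  chp : (p : O) = 0
  one : (1 : O) ≠ 0
  stab : ∀ x : O, ∃ U : Subgroup G, IsOpen (U : Set G) ∧ ∀ g ∈ U, g • x = x
  tr : ∀ U : Subgroup G, IsOpen (U : Set G) → U.Normal →
    ∃ x : O, (∀ g ∈ U, g • x = x) ∧ ∑ᶠ q : G ⧸ U, (Quotient.out q) • x = 1
  alf : ∀ g : G, g • α = (((ω g).val : ℕ) : O) * α
  uni : IsUnit α
  as : ∀ m : O, ∃ θ : O, θ ^ p - α ^ (p - 1) * θ = m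
  dom : ∀ x : O, x ^ p - α ^ (p - 1) * x = 0 → ∃ c : ZMod p, x = ((c.val : ℕ) : O) * α

/-- **Uc** (80 lines). Locally constant functions on compact groups are invariant under an open
normal subgroup. (The same as `W2/B/Uc.lean`: copy it.) -/
def S_Uc : Prop :=
  (∀ (G : Type) [Group G] [TopologicalSpace G] [IsTopologicalGroup G] [CompactSpace G] (A : Type)
    (f : G → A), IsLocallyConstant f →
    ∃ U : Subgroup G, IsOpen (U : Set G) ∧ U.Normal ∧ ∀ g, ∀ u ∈ U, f (g * u) = f g) ∧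
  ∀ (G : Type) [Group G] [TopologicalSpace G] [IsTopologicalGroup G] [CompactSpace G] (A : Type)
    (c : G → G → A), IsLocallyConstant (fun q : G × G => c q.1 q.2) →
    ∃ U : Subgroup G, IsOpen (U : Set G) ∧ U.Normal ∧
      ∀ g h, ∀ u ∈ U, ∀ v ∈ U, c (g * u) (h * v) = c g h

/-- **Ah** (250 lines, uses `S_Uc`). `H²(G, ZMod p(ω)) = 0` and the description of the crossed
homomorphisms.

Proof. In `O` we have `p = 0`, so `P_h(x) = x ^ p - h x` (`h = α ^ (p - 1)`, fixed by `G` since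
`(ω g) ^ (p - 1) = 1`) is additive and commutes with `G`. For `c ∈ ZMod p` let `c α` be `(c.val : O) * α`; this is
additive and injective in `c` (`α` is a unit, `1 ≠ 0`), and `P_h(c α) = 0`, `g • (c α) = (ω g * c) α`.
(1) Let `c` be a cocycle, `U` as in `S_Uc` for `c` and for `ω`, `x ∈ O` as in `ASMod.tr` for `U`; `G ⧸ U` is
finite. Put `C γ δ = (c γ δ) α`, `a γ = ∑_q C γ q * (γ q) • x` (`γ q` the product of `γ` with a
representative; well defined and right invariant under `U`, as in `W2/B/Ah.lean`). Then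
`γ • a δ = ∑_q γ • C δ q * (γ δ q) • x`, `a (γ δ) = ∑_q C (γ δ) q * (γ δ q) • x` and, substituting `q ↦ δ q`,
`a γ = ∑_q C γ (δ q) * (γ δ q) • x`. By the cocycle identity (multiplied by `α`:
`γ • C δ q - C (γ δ) q + C γ (δ q) - C γ δ = 0`) and `∑_q (γ δ q) • x = 1`:
`γ • a δ - a (γ δ) + a γ = C γ δ`. (*)
Put `r γ = P_h(a γ)`. Then `γ • r δ - r (γ δ) + r γ = 0`. Let `m = - ∑_q r q * q • x`. Then
`γ • m = - ∑_q (r (γ q) - r γ) * (γ q) • x = m + r γ`. Let `θ ∈ O` with `P_h(θ) = m` (`ASMod.as`) and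
`b' γ = a γ - (γ • θ - θ)`. Then `P_h(b' γ) = r γ - (γ • m - m) = 0`, so `b' γ = (b γ) α` (`ASMod.dom`); `b` is locally
constant, and from (*) `C γ δ = b' γ + γ • b' δ - b' (γ δ)`, i.e. `c γ δ = b γ + ω γ * b δ - b (γ δ)`.
(2) Let `H` be a crossed homomorphism, `U` open normal such that `H`, `ω` are right invariant, `x` as
above, `θ = - ∑_q (H q) α * q • x`. `γ • θ = - ∑_q (ω γ * H q) α * (γ q) • x = - ∑_q (H (γ q) - H γ) α * (γ q) • x
= θ + (H γ) α`. -/
def S_Ah : Prop :=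
  ∀ (p : ℕ) [Fact p.Prime] (G : Type) [Group G] [TopologicalSpace G] [IsTopologicalGroup G]
    [CompactSpace G] (O : Type) [CommRing O] [MulSemiringAction G O] (ω : G → ZMod p) (α : O),
    ChO p ω → ASMod p ω α →
    H2Z p ω ∧ ∀ H : G → ZMod p, Coc (fun g x => ω g * x) H →
      ∃ θ : O, ∀ g, g • θ = θ + (((H g).val : ℕ) : O) * α

/-- **Has** (200 lines). Properties of `omc` and `hP`.

Proof. `ZMod p → L`, `c ↦ op L c`, is an injective ring homomorphism (`CharP L p`), its image are the roots of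
`x ^ p = x`. (1) `(g α) ^ (p - 1) = α ^ (p - 1)`, so `g α / α` is a root of `x ^ (p - 1) = 1`. Locally constant since
the stabilizer of `α` is open. (2) The roots of `P_h(x) = f` are `x₀ + op L c * α`; `g` permutes them, and
`g (x₀ + c α) = x₀ + hP(g) α + ω(g) c α`. So `hP` is defined by the chosen root `x₀ = asr`, and for another
root `x = x₀ + c α`: `g x = x + (hP g - c + ω(g) c) α`. (3) for the chosen root: `g h x₀ = g (x₀ + (hP h) α)`.
(4) `x₀ + x₀'` is a root for `f + f'`. (5) if `hP g = c - ω(g) c` for all `g` then `x₀ + c α` is fixed by all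
`g`, so it is in `K` (`InfiniteGalois`/`IsGalois.mem_bot_iff_fixed`); conversely a root in `K` is `x₀ + c α`. -/
def S_Has : Prop :=
  ∀ (p : ℕ) [Fact p.Prime] (K L : Type) [Field K] [Field L] [Algebra K L] [CharP K p] [IsGalois K L]
    (α : L) (h : K), α ≠ 0 → α ^ (p - 1) = algebraMap K L h →
    (ChO p (omc p (K := K) α) ∧ ∀ g : Gal(L/K), g α = op L (omc p α g) * α) ∧
    (∀ f : K, ∀ x : L, Ph p (algebraMap K L h) x = algebraMap K L f → ∃ c : ZMod p,
      ∀ g : Gal(L/K), g x = x + op L (hP p α f g + (c - omc p α g * c)) * α) ∧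
    (∀ f : K, (∃ x : L, Ph p (algebraMap K L h) x = algebraMap K L f) →
      Coc (fun (g : Gal(L/K)) (x : ZMod p) => omc p α g * x) (hP p α f) ∧
      ∃ x : L, Ph p (algebraMap K L h) x = algebraMap K L f ∧
        ∀ g : Gal(L/K), g x = x + op L (hP p α f g) * α) ∧
    (∀ f f' : K, (∃ x : L, Ph p (algebraMap K L h) x = algebraMap K L f) →
      (∃ x : L, Ph p (algebraMap K L h) x = algebraMap K L f') → ∃ c : ZMod p, ∀ g : Gal(L/K),
      hP p α (f + f') g = hP p α f g + hP p α f' g + (c - omc p α g * c)) ∧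
    (∀ f : K, (∃ x : L, Ph p (algebraMap K L h) x = algebraMap K L f) →
      ((∃ c : ZMod p, ∀ g : Gal(L/K), hP p α f g = c - omc p α g * c) ↔ ∃ x : K, Ph p h x = f)) ∧
    ∀ g : Gal(L/K), omc p (1 : L) g = 1

/-- **Sep** (150 lines, uses `S_Ah`, `S_Has`). The absolute Galois group of a field of characteristic
`p`.

Proof. `O = k^s` with `G = Gal(k^s/k)` is an `ASMod` for `ω = omc p α`: `as`: `X ^ p - h X - m` is separable
(derivative `- h ≠ 0`) and `k^s` is separably closed; `dom`: `x = 0` or `(x / α) ^ (p - 1) = 1`; `alf`: `S_Has` (1);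
`tr`, `stab`: as in `W2/B/Sep.lean`. So `S_Ah` applies; for a crossed homomorphism `H` it gives `θ ∈ k^s` with
`g θ = θ + (H g) α`; then `P_h(θ)` is fixed by `G`, so it is some `f ∈ k`, and by `S_Has` (2) `H - hP α f` is
`c - ω c`. -/
def S_Sep : Prop :=
  ∀ (p : ℕ) [Fact p.Prime] (k : Type) [Field k] [CharP k p] (α : SeparableClosure k) (h : k),
    α ≠ 0 → α ^ (p - 1) = algebraMap k (SeparableClosure k) h →
    H2Z p (omc p (K := k) α) ∧
    (∀ f : SeparableClosure k, ∃ x : SeparableClosure k, Ph p (α ^ (p - 1)) x = f) ∧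
    ∀ H : Gal(SeparableClosure k/k) → ZMod p,
      Coc (fun g (x : ZMod p) => omc p α g * x) H →
      ∃ (f : k) (c : ZMod p), ∀ g, H g = hP p α f g + (c - omc p α g * c)

/-- **Twb** (200 lines). Towers. Here and below `Ks / K` is separable and separably closed, `K` has
characteristic `p`, `α ^ (p - 1) ∈ K`.

Proof. As in `W2/B/Twb.lean`. (1) By induction on the tower `M'`: `M ⊔ K⟮α⟯ = M` for towers `M` (every tower
contains `α`), `M ⊔ (M'' ⊔ K⟮θ⟯) = (M ⊔ M'') ⊔ K⟮θ⟯`. (4) `K⟮α⟯.map σ = K⟮σ α⟯ = K⟮α⟯` as `σ α / α` is in the prime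
field; `(M ⊔ K⟮θ⟯).map σ = M.map σ ⊔ K⟮σ θ⟯` and `(σ θ) ^ p - σ θ = σ (θ ^ p - θ)` is integral over `A`. -/
def S_Twb : Prop :=
  ∀ (p : ℕ) [Fact p.Prime] (A K Ks : Type) [CommRing A] [Field K] [Algebra A K] [Field Ks]
    [Algebra K Ks] [Algebra A Ks] [IsScalarTower A K Ks] [CharP K p] [IsGalois K Ks]
    [IsSepClosed Ks] (α : Ks) (h : K), α ≠ 0 → α ^ (p - 1) = algebraMap K Ks h →
    (∀ M M', Twr p A K Ks α M → Twr p A K Ks α M' → Twr p A K Ks α (M ⊔ M')) ∧
    (∀ x, x ∈ Om p A K Ks α ↔ ∃ M, Twr p A K Ks α M ∧ x ∈ M) ∧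
    (∀ M, Twr p A K Ks α M → FiniteDimensional K M) ∧
    (∀ M (σ : Gal(Ks/K)), Twr p A K Ks α M → Twr p A K Ks α (M.map (σ : Ks →ₐ[K] Ks))) ∧
    IsGalois K (Om p A K Ks α) ∧
    (∀ θ : Ks, θ ^ p - θ ∈ Om p A K Ks α → IsIntegral A (θ ^ p - θ) → θ ∈ Om p A K Ks α) ∧
    α ∈ Om p A K Ks α

/-- **Twt** (200 lines, uses `S_Twb`). Integral elements of trace one in towers.

Proof by induction. `K⟮α⟯`: `d = finrank K K⟮α⟯` satisfies `1 ≤ d ≤ p - 1` (`α` is a root of `X ^ (p - 1) - h`; if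
`p = 2` then `α ∈ K`), so `d` is invertible modulo `p`; `x = d'` with `d d' ≡ 1` modulo `p` has trace
`d d' = 1`. Step `M' = M ⊔ K⟮θ⟯`: if `θ ∈ M` then `M' = M`. Otherwise `X ^ p - X - m` (`m = θ ^ p - θ ∈ M`) is
irreducible over `M` (its roots are `θ + c`; the coefficient of `X ^ (d - 1)` of a factor of degree `d`,
`0 < d < p`, in `M[X]` is `- (d θ + c')`, which is not in `M`), so `M' / M` has degree `p`, and the trace of
`θ ^ (p - 1)` from `M'` to `M` is `∑_c (θ + c) ^ (p - 1) = - 1` (`∑_c c ^ j = 0` for `0 ≤ j < p - 1` and `- 1` for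
`j = p - 1`). If `x ∈ M` is integral with trace `1` over `K`, then `- x θ ^ (p - 1)` is integral and has trace
`1` (`Algebra.trace_trace`). -/
def S_Twt : Prop :=
  ∀ (p : ℕ) [Fact p.Prime] (A K Ks : Type) [CommRing A] [Field K] [Algebra A K] [Field Ks]
    [Algebra K Ks] [Algebra A Ks] [IsScalarTower A K Ks] [CharP K p] [IsGalois K Ks]
    [IsSepClosed Ks] (α : Ks) (h : K), α ≠ 0 → α ^ (p - 1) = algebraMap K Ks h →
    ∀ M, Twr p A K Ks α M → ∃ x : M, IsIntegral A (x : Ks) ∧ Algebra.trace K M x = 1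

/-- **Omi** (250 lines, uses `S_Ah`, `S_Has`, `S_Twb`, `S_Twt`). The Galois group of `Om`, `h` a unit of
`A`.

Proof. `αo` is `α` as an element of `Om`. Let `O` be the integral closure of `A` in `Om`, stable under
`G = Gal(Om/K)` (compact). `αo`, `αo⁻¹ ∈ O` as `h`, `h⁻¹ ∈ A`. `O` is an `ASMod` for `ω = omc p αo`: `chp`, `one`,
`dom` clear (subring of a field), `stab`: Krull topology, `alf`: `S_Has` (1). `as`: for `m ∈ O` let `y ∈ Ks` with
`y ^ p - y = m / α ^ p`; `y ∈ Om` by `S_Twb` (6) and `y` is integral; `θ = α y` satisfies `P_h(θ) = m`. `tr`: as in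
`W2/B/Omi.lean` from `S_Twt`. So `S_Ah` gives (1), and for a crossed homomorphism `H` it gives `θ ∈ O` with
`g θ = θ + (H g) αo`; `P_h(θ)` is fixed by `G`, so in `K`, and integral over `A`, so in `A`, say `f`; by
`S_Has` (2) `H = hP f + (c - ω c)`. (3) for `f ∈ A` take the `θ` of `as` for `m = f`. (4) for `α = 1` in the
place of `α` (the untwisted case inside the same `Om`): a root `y ∈ Ks` of `y ^ p - y = f`, `f ∈ A`, lies in
`Om` by `S_Twb` (6). -/
def S_Omi : Prop :=
  ∀ (p : ℕ) [Fact p.Prime] (A K Ks : Type) [CommRing A] [Field K] [Algebra A K]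
    [IsFractionRing A K] [IsIntegrallyClosed A] [Field Ks] [Algebra K Ks] [Algebra A Ks]
    [IsScalarTower A K Ks] [CharP K p] [IsGalois K Ks] [IsSepClosed Ks] (α : Ks) (h : A),
    IsUnit h → α ^ (p - 1) = algebraMap A Ks h →
    ∀ αo : Om p A K Ks α, (αo : Ks) = α →
    H2Z p (omc p (K := K) αo) ∧
    (∀ H : Gal((Om p A K Ks α)/K) → ZMod p, Coc (fun g (x : ZMod p) => omc p αo g * x) H →
      ∃ (f : A) (c : ZMod p), ∀ g, H g = hP p αo (algebraMap A K f) g + (c - omc p αo g * c)) ∧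
    (∀ f : A, ∃ x : Om p A K Ks α, Ph p (αo ^ (p - 1)) x = algebraMap K _ (algebraMap A K f)) ∧
    ∀ f : A, ∃ x : Om p A K Ks α, Ph p 1 x = algebraMap K _ (algebraMap A K f)

/-- **Res** (200 lines, uses `S_Has`). Restriction homomorphisms.

Proof. As in `W2/C/Res.lean` (`rsH`, `Rst` are the same). (4) `g (ι α) = ι (rsH ι g α) = op L (ω (rsH ι g)) * ι α`.
(5) Let `x ∈ Ω` be the root of `S_Has` (3) with `σ x = x + hP(σ) α`; `ι x` is a root for `f` and `ι α` in `L`,
`g (ι x) = ι (rsH ι g x) = ι x + op L (hP (rsH ι g)) * ι α`; compare with `S_Has` (2) for `L / M`. -/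
def S_Res : Prop :=
  ∀ (p : ℕ) [Fact p.Prime] (K Ω M L : Type) [Field K] [Field Ω] [Field M] [Field L] [Algebra K Ω]
    [Algebra K M] [Algebra K L] [Algebra M L] [IsScalarTower K M L] [CharP K p] [IsGalois K Ω]
    [IsGalois M L] (ι : Ω →ₐ[K] L),
    Continuous (rsH (M := M) ι) ∧ (∀ g : Gal(L/M), Rst ι g (rsH (M := M) ι g)) ∧
    (∀ (g : Gal(L/M)) (σ : Gal(Ω/K)), Rst ι g σ → σ = rsH (M := M) ι g) ∧
    ∀ (α : Ω) (h : K), α ≠ 0 → α ^ (p - 1) = algebraMap K Ω h →
      (∀ g : Gal(L/M), omc p α (rsH (M := M) ι g) = omc p (ι α) g) ∧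
      ∀ f : K, (∃ x : Ω, Ph p (α ^ (p - 1)) x = algebraMap K Ω f) → ∃ c : ZMod p,
        ∀ g : Gal(L/M), hP p α f (rsH (M := M) ι g) =
          hP p (ι α) (algebraMap K M f) g + (c - omc p (ι α) g * c)

end Pool.Agent.MP72P
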