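import Pool.Agent.Lib.MP_72e2e6_nt.P3.B.Spec

/-!
# MP_72e2e6_nt, theorem T3p, P3/B/Twb: towers of Artin-Schreier extensions (helper82)
-/

set_option autoImplicit false

namespace Pool.Agent.MP72P

open IntermediateField

section

variable {p : ℕ} {A K Ks : Type} [CommRing A] [Field K] [Field Ks] [Algebra K Ks] [Algebra A Ks]
  {α : Ks}

private theorem twb_alpha {M : IntermediateField K Ks} (hM : Twr p A K Ks α M) : K⟮α⟯ ≤ M := by
  induction hM with
  | bot => exact le_rfl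
  | step M'' θ h h1 h2 ih => exact ih.trans le_sup_left

private theorem twb_sup {M M' : IntermediateField K Ks} (hM : Twr p A K Ks α M)
    (hM' : Twr p A K Ks α M') : Twr p A K Ks α (M ⊔ M') := by
  induction hM' with
  | bot =>
    rw [sup_eq_left.2 (twb_alpha hM)]
    exact hM
  | step M'' θ h h1 h2 ih =>
    rw [← sup_assoc]
    exact Twr.step _ θ ih h1 ((le_sup_right : M'' ≤ M ⊔ M'') h2)

private theorem twb_mem (x : Ks) : x ∈ Om p A K Ks α ↔ ∃ M, Twr p A K Ks α M ∧ x ∈ M := by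
  constructor
  · intro hx
    have hne : Nonempty {M : IntermediateField K Ks | Twr p A K Ks α M} := ⟨⟨K⟮α⟯, Twr.bot⟩⟩
    have hdir : Directed (· ≤ ·) (fun M : {M : IntermediateField K Ks | Twr p A K Ks α M} =>
        (M : IntermediateField K Ks)) := by
      rintro ⟨M, hM⟩ ⟨M', hM'⟩
      exact ⟨⟨M ⊔ M', twb_sup hM hM'⟩, le_sup_left, le_sup_right⟩
    have h1 : (Om p A K Ks α : Set Ks) = ⋃ M : {M : IntermediateField K Ks | Twr p A K Ks α M},
        ((M : IntermediateField K Ks) : Set Ks) := by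
      unfold Om
      rw [sSup_eq_iSup']
      exact coe_iSup_of_directed hdir
    have h2 : x ∈ (Om p A K Ks α : Set Ks) := hx
    rw [h1, Set.mem_iUnion] at h2
    obtain ⟨⟨M, hM⟩, h3⟩ := h2
    exact ⟨M, hM, h3⟩
  · rintro ⟨M, hM, hx⟩
    exact (le_sSup hM : M ≤ Om p A K Ks α) hx

/-- The conjugates of `α` are multiples of `α` by elements of the prime field. -/
private theorem twb_conj [Fact p.Prime] [CharP K p] {h : K} (h0 : α ≠ 0)
    (h1 : α ^ (p - 1) = algebraMap K Ks h) (σ : Gal(Ks/K)) : K⟮σ α⟯ = K⟮α⟯ := by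
  have hp : p.Prime := Fact.out
  have hch : CharP Ks p := charP_of_injective_algebraMap (algebraMap K Ks).injective p
  have h2 : (σ α) ^ (p - 1) = α ^ (p - 1) := by
    rw [← map_pow, h1, AlgEquiv.commutes]
  have hs0 : σ α ≠ 0 := by
    intro h
    exact h0 ((map_eq_zero_iff σ σ.injective).1 h)
  have h3 : (σ α / α) ^ p = σ α / α := by
    have h4 : (σ α / α) ^ (p - 1) = 1 := by
      rw [div_pow, h2, div_self (pow_ne_zero _ h0)]
    calc (σ α / α) ^ p = (σ α / α) ^ (p - 1 + 1) := by rw [Nat.sub_add_cancel hp.one_le]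
      _ = σ α / α := by rw [pow_succ, h4, one_mul]
  obtain ⟨n, hn⟩ := (_root_.mem_bot_iff_intCast p Ks).1
    ((Subfield.mem_bot_iff_pow_eq_self Ks p).2 h3)
  have h5 : σ α = (n : Ks) * α := by
    rw [hn, div_mul_cancel₀ _ h0]
  have hn0 : (n : Ks) ≠ 0 := by
    intro h
    rw [h, zero_mul] at h5
    exact hs0 h5
  refine le_antisymm ?_ ?_
  · rw [adjoin_simple_le_iff, h5]
    exact mul_mem (intCast_mem _ n) (mem_adjoin_simple_self K α)
  · rw [adjoin_simple_le_iff]
    have h6 : α = (n : Ks)⁻¹ * σ α := by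
      rw [h5, ← mul_assoc, inv_mul_cancel₀ hn0, one_mul]
    rw [h6]
    refine mul_mem (inv_mem (intCast_mem _ n)) ?_
    rw [← h6]
    exact mem_adjoin_simple_self K (σ α)

end

theorem tTwb : S_Twb := by
  intro p _ A K Ks _ _ _ _ _ _ _ _ _ _ α h hα0 hα
  have h4 : ∀ M (σ : Gal(Ks/K)), Twr p A K Ks α M →
      Twr p A K Ks α (M.map (σ : Ks →ₐ[K] Ks)) := by
    intro M σ hM
    induction hM with
    | bot =>
      rw [IntermediateField.adjoin_map, Set.image_singleton]
      have h5 : K⟮(σ : Ks →ₐ[K] Ks) α⟯ = K⟮α⟯ := twb_conj hα0 hα σ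
      rw [h5]
      exact Twr.bot
    | step M'' θ h h1 h2 ih =>
      rw [IntermediateField.map_sup, IntermediateField.adjoin_map, Set.image_singleton]
      have h5 : (σ : Ks →ₐ[K] Ks) θ ^ p - (σ : Ks →ₐ[K] Ks) θ =
          (σ : Ks →ₐ[K] Ks) (θ ^ p - θ) := by
        rw [map_sub, map_pow]
      refine Twr.step _ _ ih ?_ ?_
      · rw [h5]
        exact h1.map ((σ : Ks →ₐ[K] Ks).restrictScalars A)
      · rw [h5]
        exact ⟨_, h2, rfl⟩
  refine ⟨fun M M' hM hM' => twb_sup hM hM', twb_mem, ?_, h4, ?_, ?_, ?_⟩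
  · intro M hM
    induction hM with
    | bot => exact IntermediateField.adjoin.finiteDimensional (Algebra.IsIntegral.isIntegral α)
    | step M'' θ h h1 h2 ih =>
      have h3 : FiniteDimensional K K⟮θ⟯ :=
        IntermediateField.adjoin.finiteDimensional (Algebra.IsIntegral.isIntegral θ)
      exact IntermediateField.finiteDimensional_sup M'' K⟮θ⟯
  · have hn : Normal K (Om p A K Ks α) := by
      rw [normal_iff_forall_map_le']
      rintro σ _ ⟨x, hx, rfl⟩
      obtain ⟨M, hM, hx'⟩ := (twb_mem x).1 hx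
      exact (twb_mem _).2 ⟨_, h4 M σ hM, ⟨x, hx', rfl⟩⟩
    have hs : Algebra.IsSeparable K (Om p A K Ks α) :=
      Algebra.isSeparable_tower_bot_of_isSeparable K (Om p A K Ks α) Ks
    exact ⟨⟩
  · intro θ hθ hi
    obtain ⟨M, hM, hx⟩ := (twb_mem _).1 hθ
    exact (twb_mem θ).2 ⟨M ⊔ K⟮θ⟯, Twr.step M θ hM hi hx,
      (le_sup_right : K⟮θ⟯ ≤ M ⊔ K⟮θ⟯) (mem_adjoin_simple_self K θ)⟩
  · exact (twb_mem α).2 ⟨K⟮α⟯, Twr.bot, mem_adjoin_simple_self K α⟩

end Pool.Agent.MP72P
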